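import Mathlib

set_option autoImplicit false

/-! Hausdorff approximation of functions on `[-1, 1]` by algebraic polynomials (parameter 1). -/

namespace Pool.Agent.Y914.Haus

open Set Polynomial

noncomputable section

/-- The Hausdorff difference of `f` and `g` at `x` (parameter `1`) on `[-1, 1]`. -/
def hdiff (f g : ℝ → ℝ) (x : ℝ) : ℝ :=
  max (⨅ ξ : Icc (-1 : ℝ) 1, max |x - ξ| |f x - g ξ|)
    (⨅ ξ : Icc (-1 : ℝ) 1, max |x - ξ| |f ξ - g x|)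

/-- The Hausdorff distance of `f` and `g` on `[-1, 1]`. -/
def hdist (f g : ℝ → ℝ) : ℝ := ⨆ x : Icc (-1 : ℝ) 1, hdiff f g x

/-- The best Hausdorff approximation of `f` by real polynomials of degree at most `n`. -/
def E (n : ℕ) (f : ℝ → ℝ) : ℝ :=
  ⨅ p : {p : ℝ[X] // p.natDegree ≤ n}, hdist f (fun x => p.1.eval x)

/-- The class of continuous convex functions on `[-1, 1]` with values in `[0, 1]`. -/
def K : Set (ℝ → ℝ) :=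
  {f | ContinuousOn f (Icc (-1) 1) ∧ ConvexOn ℝ (Icc (-1) 1) f ∧
    ∀ x ∈ Icc (-1 : ℝ) 1, 0 ≤ f x ∧ f x ≤ 1}

theorem inf1_nonneg (f g : ℝ → ℝ) (x : ℝ) :
    0 ≤ ⨅ ξ : Icc (-1 : ℝ) 1, max |x - ξ| |f x - g ξ| :=
  Real.iInf_nonneg fun _ => le_max_of_le_left (abs_nonneg _)

theorem hdiff_nonneg (f g : ℝ → ℝ) (x : ℝ) : 0 ≤ hdiff f g x :=
  le_max_of_le_left (inf1_nonneg f g x)

theorem hdist_nonneg (f g : ℝ → ℝ) : 0 ≤ hdist f g :=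
  Real.iSup_nonneg fun x => hdiff_nonneg f g x

theorem bdd1 (f g : ℝ → ℝ) (x : ℝ) :
    BddBelow (range fun ξ : Icc (-1 : ℝ) 1 => max |x - ξ| |f x - g ξ|) :=
  ⟨0, by rintro _ ⟨ξ, rfl⟩; exact le_max_of_le_left (abs_nonneg _)⟩

theorem bdd2 (f g : ℝ → ℝ) (x : ℝ) :
    BddBelow (range fun ξ : Icc (-1 : ℝ) 1 => max |x - ξ| |f ξ - g x|) :=
  ⟨0, by rintro _ ⟨ξ, rfl⟩; exact le_max_of_le_left (abs_nonneg _)⟩

theorem hdiff_le {f g : ℝ → ℝ} {x u : ℝ}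
    (h1 : ∃ ξ ∈ Icc (-1 : ℝ) 1, |x - ξ| ≤ u ∧ |f x - g ξ| ≤ u)
    (h2 : ∃ ξ ∈ Icc (-1 : ℝ) 1, |x - ξ| ≤ u ∧ |f ξ - g x| ≤ u) : hdiff f g x ≤ u := by
  obtain ⟨ξ, hξ, a, b⟩ := h1
  obtain ⟨η, hη, c, d⟩ := h2
  refine max_le ?_ ?_
  · exact (ciInf_le (bdd1 f g x) ⟨ξ, hξ⟩).trans (max_le a b)
  · exact (ciInf_le (bdd2 f g x) ⟨η, hη⟩).trans (max_le c d)

instance : Nonempty (Icc (-1 : ℝ) 1) := ⟨⟨0, by norm_num, by norm_num⟩⟩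

theorem hdist_le {f g : ℝ → ℝ} {u : ℝ} (h : ∀ x ∈ Icc (-1 : ℝ) 1, hdiff f g x ≤ u) :
    hdist f g ≤ u := ciSup_le fun x => h x x.2

theorem E_le {n : ℕ} {f : ℝ → ℝ} {u : ℝ} (p : ℝ[X]) (hp : p.natDegree ≤ n)
    (h : hdist f (fun x => p.eval x) ≤ u) : E n f ≤ u :=
  (ciInf_le ⟨0, by rintro _ ⟨q, rfl⟩; exact hdist_nonneg _ _⟩
    (⟨p, hp⟩ : {p : ℝ[X] // p.natDegree ≤ n})).trans h

theorem le_E {n : ℕ} {f : ℝ → ℝ} {u : ℝ}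
    (h : ∀ p : ℝ[X], p.natDegree ≤ n → u ≤ hdist f (fun x => p.eval x)) : u ≤ E n f := by
  have : Nonempty {p : ℝ[X] // p.natDegree ≤ n} := ⟨⟨0, by simp⟩⟩
  exact le_ciInf fun p => h p.1 p.2

theorem bddA {f g : ℝ → ℝ} (hf : ∀ x ∈ Icc (-1 : ℝ) 1, |f x| ≤ 1)
    (hg : ContinuousOn g (Icc (-1) 1)) :
    BddAbove (range fun x : Icc (-1 : ℝ) 1 => hdiff f g x) := by
  obtain ⟨M, hM⟩ := isCompact_Icc.exists_bound_of_continuousOn hg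
  refine ⟨1 + M, ?_⟩
  rintro _ ⟨x, rfl⟩
  have h1 := hf x x.2
  have h2 := hM x x.2
  rw [Real.norm_eq_abs] at h2
  have h3 : |f x - g x| ≤ 1 + M := by
    have := abs_sub (f x) (g x)
    linarith
  have h0 : (0 : ℝ) ≤ 1 + M := (abs_nonneg _).trans h3
  exact hdiff_le ⟨x, x.2, by simpa using h0, h3⟩ ⟨x, x.2, by simpa using h0, h3⟩

theorem of_hdist_lt {f g : ℝ → ℝ} (hf : ∀ x ∈ Icc (-1 : ℝ) 1, |f x| ≤ 1)
    (hg : ContinuousOn g (Icc (-1) 1)) {u : ℝ} (h : hdist f g < u) {x : ℝ}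
    (hx : x ∈ Icc (-1 : ℝ) 1) :
    (∃ ξ ∈ Icc (-1 : ℝ) 1, |x - ξ| < u ∧ |f x - g ξ| < u) ∧
      ∃ ξ ∈ Icc (-1 : ℝ) 1, |x - ξ| < u ∧ |f ξ - g x| < u := by
  have h1 : hdiff f g x < u := (le_ciSup (bddA hf hg) ⟨x, hx⟩).trans_lt h
  obtain ⟨h2, h3⟩ := max_lt_iff.1 h1
  obtain ⟨ξ, h4⟩ := exists_lt_of_ciInf_lt h2
  obtain ⟨η, h5⟩ := exists_lt_of_ciInf_lt h3
  exact ⟨⟨ξ, ξ.2, max_lt_iff.1 h4⟩, ⟨η, η.2, max_lt_iff.1 h5⟩⟩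

end

end Pool.Agent.Y914.Haus
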