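import Pool.Agent.Y914.Haus.Defs

set_option autoImplicit false

/-! Lower bounds: convex functions with a steep rise at the right end point. -/

namespace Pool.Agent.Y914.Haus

open Set Polynomial Polynomial.Chebyshev

/-- The value of the Chebyshev polynomial is monotone to the right of `1`. -/
theorem T_mono (N : ℕ) {y z : ℝ} (hy : 1 ≤ y) (hyz : y ≤ z) :
    (T ℝ N).eval y ≤ (T ℝ N).eval z := by
  have hm : MonotoneOn (fun t => (T ℝ N).eval t) (Ici (1 : ℝ)) := by
    apply monotoneOn_of_deriv_nonneg (convex_Ici 1)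
    · exact (T ℝ N).continuous.continuousOn
    · exact (T ℝ N).differentiable.differentiableOn
    · intro x hx
      rw [interior_Ici] at hx
      have h := eval_iterate_derivative_le_of_forall_abs_le_one (n := N) (P := 0) (k := 1)
        (x := x) (le_of_lt hx) (by simp) (by simp)
      simpa using h
  exact hm hy (hy.trans hyz) hyz

/-- Chebyshev growth: a polynomial bounded by `u` on `[-1, a]`. -/
theorem growth {N : ℕ} {p : ℝ[X]} (hp : p.natDegree ≤ N) {u a ξ : ℝ} (hu : 0 < u)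
    (ha : -1 < a) (hξ : a ≤ ξ) (hb : ∀ x, -1 ≤ x → x ≤ a → |p.eval x| ≤ u) :
    p.eval ξ ≤ u * (T ℝ N).eval ((2 * ξ + 1 - a) / (1 + a)) := by
  have h1a : 0 < 1 + a := by linarith
  set q : ℝ[X] := C (1 / u) * p.comp (C ((1 + a) / 2) * X - C ((1 - a) / 2)) with hq
  have hev : ∀ y, q.eval y = p.eval (((1 + a) * y - (1 - a)) / 2) / u := by
    intro y
    rw [hq]
    simp only [eval_mul, eval_C, eval_comp, eval_sub, eval_X]
    rw [show (1 + a) / 2 * y - (1 - a) / 2 = ((1 + a) * y - (1 - a)) / 2 by ring]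
    field_simp
  have hdeg : q.degree ≤ N := by
    refine (degree_le_natDegree).trans ?_
    have h1 : q.natDegree ≤ p.natDegree * 1 := by
      refine (natDegree_C_mul_le _ _).trans ?_
      refine natDegree_comp_le.trans ?_
      refine Nat.mul_le_mul_left _ ?_
      refine (natDegree_sub_le _ _).trans ?_
      simp only [natDegree_C]
      rw [Nat.max_eq_left (Nat.zero_le _)]
      exact (natDegree_C_mul_le _ _).trans natDegree_X.le
    exact_mod_cast (h1.trans (by simpa using hp))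
  have hbd : ∀ y ∈ Icc (-1 : ℝ) 1, |q.eval y| ≤ 1 := by
    intro y hy
    rw [hev, abs_div, abs_of_pos hu, div_le_one hu]
    apply hb
    · have := hy.1; nlinarith
    · have := hy.2; nlinarith
  have hy0 : 1 ≤ (2 * ξ + 1 - a) / (1 + a) := by
    rw [le_div_iff₀ h1a]; linarith
  have h := eval_iterate_derivative_le_of_forall_abs_le_one (n := N) (P := q) (k := 0)
    hy0 hdeg hbd
  simp only [Function.iterate_zero, id] at h
  rw [hev] at h
  have e : ((1 + a) * ((2 * ξ + 1 - a) / (1 + a)) - (1 - a)) / 2 = ξ := by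
    field_simp; ring
  rw [e, div_le_iff₀ hu] at h
  linarith

/-- The convex function `0` on `[-1, 1 - δ]` and affine on `[1 - δ, 1]` with value `1` at `1`. -/
noncomputable def F (δ : ℝ) (x : ℝ) : ℝ := max 0 (1 + (x - 1) / δ)

theorem F_mem {δ : ℝ} (hδ : 0 < δ) : F δ ∈ K := by
  refine ⟨?_, ?_, ?_⟩
  · unfold F; fun_prop
  · refine ConvexOn.sup (convexOn_const 0 (convex_Icc _ _)) ?_
    refine ⟨convex_Icc _ _, ?_⟩
    intro x _ y _ a b _ _ hab
    have : a = 1 - b := by linarith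
    subst this
    apply le_of_eq
    simp only [smul_eq_mul]
    ring
  · intro x hx
    refine ⟨le_max_left _ _, max_le (by norm_num) ?_⟩
    have : (x - 1) / δ ≤ 0 := div_nonpos_of_nonpos_of_nonneg (by linarith [hx.2]) hδ.le
    linarith

theorem F_zero {δ x : ℝ} (hδ : 0 < δ) (hx : x ≤ 1 - δ) : F δ x = 0 := by
  unfold F
  apply max_eq_left
  have : (x - 1) / δ ≤ -1 := by rw [div_le_iff₀ hδ]; linarith
  linarith

theorem F_one (δ : ℝ) : F δ 1 = 1 := by simp [F]

theorem lower {N n : ℕ} (hn : n ≤ N) {u δ : ℝ} (hu : 0 < u) (hδ : 0 < δ) (h1 : u + δ < 1)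
    (hT : u * (T ℝ N).eval ((2 + (u + δ)) / (2 - (u + δ))) < 1 - u) : u ≤ E n (F δ) := by
  apply le_E
  intro p hp
  by_contra hcon
  push Not at hcon
  have hK := F_mem hδ
  have hf : ∀ x ∈ Icc (-1 : ℝ) 1, |F δ x| ≤ 1 := by
    intro x hx
    rw [abs_of_nonneg (hK.2.2 x hx).1]
    exact (hK.2.2 x hx).2
  have hg : ContinuousOn (fun x => p.eval x) (Icc (-1 : ℝ) 1) := p.continuous.continuousOn
  have key := fun {x : ℝ} (hx : x ∈ Icc (-1 : ℝ) 1) => of_hdist_lt hf hg hcon hx
  have hb : ∀ x, -1 ≤ x → x ≤ 1 - (u + δ) → |p.eval x| ≤ u := by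
    intro x hx1 hx2
    obtain ⟨ξ, _, h3, h4⟩ := (key ⟨hx1, by linarith⟩).2
    have h5 : F δ ξ = 0 := F_zero hδ (by have := (abs_lt.1 h3).1; linarith)
    rw [h5, zero_sub, abs_neg] at h4
    exact h4.le
  obtain ⟨ξ, hξ, h3, h4⟩ := (key (x := 1) ⟨by norm_num, le_refl _⟩).1
  rw [F_one] at h4
  have h5 := (abs_lt.1 h3).2
  have h6 := (abs_lt.1 h4).2
  have h7 := growth (hp.trans hn) hu (a := 1 - (u + δ)) (ξ := ξ) (by linarith) (by linarith) hb
  have e1 : (2 * ξ + 1 - (1 - (u + δ))) / (1 + (1 - (u + δ))) = (2 * ξ + (u + δ)) / (2 - (u + δ)) := by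
    congr 1 <;> ring
  rw [e1] at h7
  have hpos : 0 < 2 - (u + δ) := by linarith
  have h8 := T_mono N (y := (2 * ξ + (u + δ)) / (2 - (u + δ))) (z := (2 + (u + δ)) / (2 - (u + δ)))
    (by rw [le_div_iff₀ hpos]; linarith)
    (div_le_div_of_nonneg_right (by linarith [hξ.2]) hpos.le)
  have h9 := mul_le_mul_of_nonneg_left h8 hu.le
  linarith

end Pool.Agent.Y914.Haus
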