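import Pool.Agent.Y914.Haus.Polys
import Pool.Agent.Y914.Haus.Vals

set_option autoImplicit false

/-! `|x|` is extremal for degree one and not extremal for the degrees `2, ..., 25`. -/

namespace Pool.Agent.Y914.Haus

open Set Polynomial

theorem degree_one (f : ℝ → ℝ) (hf : f ∈ K) : E 1 f ≤ E 1 (fun x => |x|) := by
  have h1 : E 1 f ≤ 1 / 2 := by
    refine E_le (C (1 / 2) : ℝ[X]) (by simp) ?_
    apply hdist_le
    intro x hx
    have h2 := hf.2.2 x hx
    have h3 : |f x - (C (1 / 2) : ℝ[X]).eval x| ≤ 1 / 2 := by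
      rw [eval_C, abs_le]
      constructor <;> linarith [h2.1, h2.2]
    exact hdiff_le ⟨x, hx, by norm_num, h3⟩ ⟨x, hx, by norm_num, h3⟩
  have h2 : 1 / 2 ≤ E 1 (fun x => |x|) := by
    apply le_E
    intro p hp
    by_contra hcon
    push Not at hcon
    have hf' : ∀ x ∈ Icc (-1 : ℝ) 1, |(|x|)| ≤ 1 := by
      intro x hx
      rw [abs_abs, abs_le]
      exact hx
    have key := fun {x : ℝ} (hx : x ∈ Icc (-1 : ℝ) 1) =>
      of_hdist_lt hf' p.continuous.continuousOn hcon hx
    obtain ⟨a, ha, a1, a2⟩ := (key (x := 0) ⟨by norm_num, by norm_num⟩).1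
    obtain ⟨b, hb, b1, b2⟩ := (key (x := 1) ⟨by norm_num, by norm_num⟩).1
    obtain ⟨c, hc, c1, c2⟩ := (key (x := -1) ⟨by norm_num, by norm_num⟩).1
    have hlin : ∀ y, p.eval y = p.coeff 1 * y + p.coeff 0 := by
      intro y
      have h3 := eq_X_add_C_of_natDegree_le_one hp
      conv_lhs => rw [h3]
      simp
    simp only [hlin, abs_zero, abs_one, abs_neg] at a2 b2 c2
    rw [abs_lt] at a1 a2 b1 b2 c1 c2
    -- `c < a < b` and the affine function is above `1 / 2` at `b`, `c`, below at `a`
    have hcb : 0 < b - c := by linarith [b1.2, c1.1]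
    have hab : 0 < b - a := by linarith [b1.2, a1.1]
    have hca : 0 < a - c := by linarith [c1.1, a1.2]
    have e : (b - c) * (p.coeff 1 * a + p.coeff 0)
        = (b - a) * (p.coeff 1 * c + p.coeff 0) + (a - c) * (p.coeff 1 * b + p.coeff 0) := by ring
    have e1 : 1 / 2 < p.coeff 1 * c + p.coeff 0 := by linarith [c2.2]
    have e2 : 1 / 2 < p.coeff 1 * b + p.coeff 0 := by linarith [b2.2]
    have e3 : p.coeff 1 * a + p.coeff 0 < 1 / 2 := by linarith [a2.1]
    have f1 := mul_lt_mul_of_pos_left e1 hab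
    have f2 := mul_lt_mul_of_pos_left e2 hca
    have f3 := mul_lt_mul_of_pos_left e3 hcb
    linarith
  exact h1.trans h2

theorem degree_two_to_25 (n : ℕ) (h2 : 2 ≤ n) (h25 : n ≤ 25) :
    ∃ f ∈ K, E n (fun x => |x|) < E n f := by
  rcases le_or_gt n 7 with h7 | h7
  · refine ⟨F (1 / 1000), F_mem (by norm_num), ?_⟩
    have h := lower h7 (u := 17 / 200) (δ := 1 / 1000) (by norm_num) (by norm_num) (by norm_num)
      val7
    exact (upper2 h2).trans_lt (lt_of_lt_of_le (by norm_num) h)
  rcases le_or_gt n 12 with h12 | h12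
  · refine ⟨F (1 / 2000), F_mem (by norm_num), ?_⟩
    have h := lower h12 (u := 23 / 500) (δ := 1 / 2000) (by norm_num) (by norm_num) (by norm_num)
      val12
    exact (upper4 (by omega)).trans_lt (lt_of_lt_of_le (by norm_num) h)
  rcases le_or_gt n 17 with h17 | h17
  · refine ⟨F (1 / 10000), F_mem (by norm_num), ?_⟩
    have h := lower h17 (u := 37 / 1250) (δ := 1 / 10000) (by norm_num) (by norm_num)
      (by norm_num) val17
    exact (upper6 (by omega)).trans_lt (lt_of_lt_of_le (by norm_num) h)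
  rcases le_or_gt n 21 with h21 | h21
  · refine ⟨F (1 / 10000), F_mem (by norm_num), ?_⟩
    have h := lower h21 (u := 221 / 10000) (δ := 1 / 10000) (by norm_num) (by norm_num)
      (by norm_num) val21
    exact (upper8 (by omega)).trans_lt (lt_of_lt_of_le (by norm_num) h)
  · refine ⟨F (1 / 50000), F_mem (by norm_num), ?_⟩
    have h := lower h25 (u := 11 / 625) (δ := 1 / 50000) (by norm_num) (by norm_num)
      (by norm_num) val25
    exact (upper10 (by omega)).trans_lt (lt_of_lt_of_le (by norm_num) h)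

end Pool.Agent.Y914.Haus
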