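import Pool.Agent.Y914.Haus.Upper

set_option autoImplicit false

/-! Explicit even polynomials close to `|x|`. -/

namespace Pool.Agent.Y914.Haus

open Set Polynomial

theorem lo2 (x : ℝ) (h0 : 0 ≤ x) (h1 : x ≤ 1) : x - 2 * (1 / 12) ≤ (1 / 12) + (1) * x ^ 2 := by
  have key : 0 ≤ ((1 / 12) + (1) * x ^ 2) - (x - 2 * (1 / 12)) := by
    rcases le_total x (1 / 2) with hb | h0
    · obtain ⟨s, hs⟩ : ∃ s, s = (x - (0)) / (1 / 2) := ⟨_, rfl⟩
      obtain ⟨t, ht⟩ : ∃ t, t = ((1 / 2) - x) / (1 / 2) := ⟨_, rfl⟩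
      have s0 : 0 ≤ s := by rw [hs]; exact div_nonneg (by linarith) (by norm_num)
      have t0 : 0 ≤ t := by rw [ht]; exact div_nonneg (by linarith) (by norm_num)
      have e : ((1 / 12) + (1) * x ^ 2) - (x - 2 * (1 / 12)) = (1 / 4) * (s ^ 0 * t ^ 2) := by
        rw [hs, ht]; ring
      rw [e]; positivity
    have hb := h1
    obtain ⟨s, hs⟩ : ∃ s, s = (x - (1 / 2)) / (1 / 2) := ⟨_, rfl⟩
    obtain ⟨t, ht⟩ : ∃ t, t = ((1) - x) / (1 / 2) := ⟨_, rfl⟩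
    have s0 : 0 ≤ s := by rw [hs]; exact div_nonneg (by linarith) (by norm_num)
    have t0 : 0 ≤ t := by rw [ht]; exact div_nonneg (by linarith) (by norm_num)
    have e : ((1 / 12) + (1) * x ^ 2) - (x - 2 * (1 / 12)) = (1 / 4) * (s ^ 2 * t ^ 0) := by
      rw [hs, ht]; ring
    rw [e]; positivity
  linarith

theorem neg2 (x : ℝ) (h0 : 0 ≤ x) (h1 : x ≤ 1) : -(1 / 12) ≤ (1 / 12) + (1) * x ^ 2 := by
  have key : 0 ≤ ((1 / 12) + (1) * x ^ 2) - (-(1 / 12)) := by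
    have hb := h1
    obtain ⟨s, hs⟩ : ∃ s, s = (x - (0)) / (1) := ⟨_, rfl⟩
    obtain ⟨t, ht⟩ : ∃ t, t = ((1) - x) / (1) := ⟨_, rfl⟩
    have s0 : 0 ≤ s := by rw [hs]; exact div_nonneg (by linarith) (by norm_num)
    have t0 : 0 ≤ t := by rw [ht]; exact div_nonneg (by linarith) (by norm_num)
    have e : ((1 / 12) + (1) * x ^ 2) - (-(1 / 12)) = (1 / 6) * (s ^ 0 * t ^ 2) + (1 / 3) * (s ^ 1 * t ^ 1) + (7 / 6) * (s ^ 2 * t ^ 0) := by
      rw [hs, ht]; ring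
    rw [e]; positivity
  linarith

theorem hi2 (x : ℝ) (h0 : 0 ≤ x) (h1 : x ≤ 1) : (1 / 12) + (1) * x ^ 2 ≤ x + 2 * (1 / 12) := by
  have key : 0 ≤ (x + 2 * (1 / 12)) - ((1 / 12) + (1) * x ^ 2) := by
    have hb := h1
    obtain ⟨s, hs⟩ : ∃ s, s = (x - (0)) / (1) := ⟨_, rfl⟩
    obtain ⟨t, ht⟩ : ∃ t, t = ((1) - x) / (1) := ⟨_, rfl⟩
    have s0 : 0 ≤ s := by rw [hs]; exact div_nonneg (by linarith) (by norm_num)
    have t0 : 0 ≤ t := by rw [ht]; exact div_nonneg (by linarith) (by norm_num)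
    have e : (x + 2 * (1 / 12)) - ((1 / 12) + (1) * x ^ 2) = (1 / 12) * (s ^ 0 * t ^ 2) + (7 / 6) * (s ^ 1 * t ^ 1) + (1 / 12) * (s ^ 2 * t ^ 0) := by
      rw [hs, ht]; ring
    rw [e]; positivity
  linarith

theorem top2 (x : ℝ) (h0 : 0 ≤ x) (h1 : x ≤ 1) : (1 / 12) + (1) * x ^ 2 ≤ 1 + 1 / 12 := by
  have key : 0 ≤ (1 + 1 / 12) - ((1 / 12) + (1) * x ^ 2) := by
    have hb := h1
    obtain ⟨s, hs⟩ : ∃ s, s = (x - (0)) / (1) := ⟨_, rfl⟩
    obtain ⟨t, ht⟩ : ∃ t, t = ((1) - x) / (1) := ⟨_, rfl⟩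
    have s0 : 0 ≤ s := by rw [hs]; exact div_nonneg (by linarith) (by norm_num)
    have t0 : 0 ≤ t := by rw [ht]; exact div_nonneg (by linarith) (by norm_num)
    have e : (1 + 1 / 12) - ((1 / 12) + (1) * x ^ 2) = (1) * (s ^ 0 * t ^ 2) + (2) * (s ^ 1 * t ^ 1) := by
      rw [hs, ht]; ring
    rw [e]; positivity
  linarith

theorem near2 : Near (fun x => (1 / 12) + (1) * x ^ 2) (1 / 12) where
  cont := by fun_prop
  even := by intro x; ring
  u0 := by norm_num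
  u1 := by norm_num
  lo := lo2
  neg := neg2
  hi := hi2
  top := top2
  zero := by norm_num
  one := by norm_num

theorem upper2 {n : ℕ} (hn : 2 ≤ n) : E n (fun x => |x|) ≤ 1 / 12 := by
  refine E_le (C (1 / 12) + C (1) * X ^ 2 : ℝ[X]) ?_ ?_
  · refine le_trans ?_ hn
    compute_degree
  · have h := near2.hdist_le
    simpa only [eval_add, eval_mul, eval_C, eval_pow, eval_X] using h

theorem lo4 (x : ℝ) (h0 : 0 ≤ x) (h1 : x ≤ 1) : x - 2 * (1 / 22) ≤ (41 / 1000) + (51 / 25) * x ^ 2 + ((-28 / 25)) * x ^ 4 := by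
  have key : 0 ≤ ((41 / 1000) + (51 / 25) * x ^ 2 + ((-28 / 25)) * x ^ 4) - (x - 2 * (1 / 22)) := by
    rcases le_total x (1 / 4) with hb | h0
    · obtain ⟨s, hs⟩ : ∃ s, s = (x - (0)) / (1 / 4) := ⟨_, rfl⟩
      obtain ⟨t, ht⟩ : ∃ t, t = ((1 / 4) - x) / (1 / 4) := ⟨_, rfl⟩
      have s0 : 0 ≤ s := by rw [hs]; exact div_nonneg (by linarith) (by norm_num)
      have t0 : 0 ≤ t := by rw [ht]; exact div_nonneg (by linarith) (by norm_num)
      have e : ((41 / 1000) + (51 / 25) * x ^ 2 + ((-28 / 25)) * x ^ 4) - (x - 2 * (1 / 22)) = (1451 / 11000) * (s ^ 0 * t ^ 4) + (1527 / 5500) * (s ^ 1 * t ^ 3) + (3717 / 22000) * (s ^ 2 * t ^ 2) + (359 / 11000) * (s ^ 3 * t ^ 1) + (443 / 88000) * (s ^ 4 * t ^ 0) := by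
        rw [hs, ht]; ring
      rw [e]; positivity
    rcases le_total x (1 / 2) with hb | h0
    · obtain ⟨s, hs⟩ : ∃ s, s = (x - (1 / 4)) / (1 / 4) := ⟨_, rfl⟩
      obtain ⟨t, ht⟩ : ∃ t, t = ((1 / 2) - x) / (1 / 4) := ⟨_, rfl⟩
      have s0 : 0 ≤ s := by rw [hs]; exact div_nonneg (by linarith) (by norm_num)
      have t0 : 0 ≤ t := by rw [ht]; exact div_nonneg (by linarith) (by norm_num)
      have e : ((41 / 1000) + (51 / 25) * x ^ 2 + ((-28 / 25)) * x ^ 4) - (x - 2 * (1 / 22)) = (443 / 88000) * (s ^ 0 * t ^ 4) + (21 / 2750) * (s ^ 1 * t ^ 3) + (2067 / 22000) * (s ^ 2 * t ^ 2) + (461 / 2750) * (s ^ 3 * t ^ 1) + (791 / 11000) * (s ^ 4 * t ^ 0) := by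
        rw [hs, ht]; ring
      rw [e]; positivity
    have hb := h1
    obtain ⟨s, hs⟩ : ∃ s, s = (x - (1 / 2)) / (1 / 2) := ⟨_, rfl⟩
    obtain ⟨t, ht⟩ : ∃ t, t = ((1) - x) / (1 / 2) := ⟨_, rfl⟩
    have s0 : 0 ≤ s := by rw [hs]; exact div_nonneg (by linarith) (by norm_num)
    have t0 : 0 ≤ t := by rw [ht]; exact div_nonneg (by linarith) (by norm_num)
    have e : ((41 / 1000) + (51 / 25) * x ^ 2 + ((-28 / 25)) * x ^ 4) - (x - 2 * (1 / 22)) = (791 / 11000) * (s ^ 0 * t ^ 4) + (1451 / 2750) * (s ^ 1 * t ^ 3) + (1707 / 1375) * (s ^ 2 * t ^ 2) + (1248 / 1375) * (s ^ 3 * t ^ 1) + (571 / 11000) * (s ^ 4 * t ^ 0) := by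
      rw [hs, ht]; ring
    rw [e]; positivity
  linarith

theorem neg4 (x : ℝ) (h0 : 0 ≤ x) (h1 : x ≤ 1) : -(1 / 22) ≤ (41 / 1000) + (51 / 25) * x ^ 2 + ((-28 / 25)) * x ^ 4 := by
  have key : 0 ≤ ((41 / 1000) + (51 / 25) * x ^ 2 + ((-28 / 25)) * x ^ 4) - (-(1 / 22)) := by
    have hb := h1
    obtain ⟨s, hs⟩ : ∃ s, s = (x - (0)) / (1) := ⟨_, rfl⟩
    obtain ⟨t, ht⟩ : ∃ t, t = ((1) - x) / (1) := ⟨_, rfl⟩
    have s0 : 0 ≤ s := by rw [hs]; exact div_nonneg (by linarith) (by norm_num)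
    have t0 : 0 ≤ t := by rw [ht]; exact div_nonneg (by linarith) (by norm_num)
    have e : ((41 / 1000) + (51 / 25) * x ^ 2 + ((-28 / 25)) * x ^ 4) - (-(1 / 22)) = (951 / 11000) * (s ^ 0 * t ^ 4) + (951 / 2750) * (s ^ 1 * t ^ 3) + (14073 / 5500) * (s ^ 2 * t ^ 2) + (12171 / 2750) * (s ^ 3 * t ^ 1) + (11071 / 11000) * (s ^ 4 * t ^ 0) := by
      rw [hs, ht]; ring
    rw [e]; positivity
  linarith

theorem hi4 (x : ℝ) (h0 : 0 ≤ x) (h1 : x ≤ 1) : (41 / 1000) + (51 / 25) * x ^ 2 + ((-28 / 25)) * x ^ 4 ≤ x + 2 * (1 / 22) := by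
  have key : 0 ≤ (x + 2 * (1 / 22)) - ((41 / 1000) + (51 / 25) * x ^ 2 + ((-28 / 25)) * x ^ 4) := by
    rcases le_total x (1 / 2) with hb | h0
    · obtain ⟨s, hs⟩ : ∃ s, s = (x - (0)) / (1 / 2) := ⟨_, rfl⟩
      obtain ⟨t, ht⟩ : ∃ t, t = ((1 / 2) - x) / (1 / 2) := ⟨_, rfl⟩
      have s0 : 0 ≤ s := by rw [hs]; exact div_nonneg (by linarith) (by norm_num)
      have t0 : 0 ≤ t := by rw [ht]; exact div_nonneg (by linarith) (by norm_num)
      have e : (x + 2 * (1 / 22)) - ((41 / 1000) + (51 / 25) * x ^ 2 + ((-28 / 25)) * x ^ 4) = (549 / 11000) * (s ^ 0 * t ^ 4) + (962 / 1375) * (s ^ 1 * t ^ 3) + (1773 / 1375) * (s ^ 2 * t ^ 2) + (1869 / 2750) * (s ^ 3 * t ^ 1) + (1209 / 11000) * (s ^ 4 * t ^ 0) := by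
        rw [hs, ht]; ring
      rw [e]; positivity
    rcases le_total x (3 / 4) with hb | h0
    · obtain ⟨s, hs⟩ : ∃ s, s = (x - (1 / 2)) / (1 / 4) := ⟨_, rfl⟩
      obtain ⟨t, ht⟩ : ∃ t, t = ((3 / 4) - x) / (1 / 4) := ⟨_, rfl⟩
      have s0 : 0 ≤ s := by rw [hs]; exact div_nonneg (by linarith) (by norm_num)
      have t0 : 0 ≤ t := by rw [ht]; exact div_nonneg (by linarith) (by norm_num)
      have e : (x + 2 * (1 / 22)) - ((41 / 1000) + (51 / 25) * x ^ 2 + ((-28 / 25)) * x ^ 4) = (1209 / 11000) * (s ^ 0 * t ^ 4) + (879 / 2750) * (s ^ 1 * t ^ 3) + (6093 / 22000) * (s ^ 2 * t ^ 2) + (383 / 5500) * (s ^ 3 * t ^ 1) + (597 / 88000) * (s ^ 4 * t ^ 0) := by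
        rw [hs, ht]; ring
      rw [e]; positivity
    rcases le_total x (7 / 8) with hb | h0
    · obtain ⟨s, hs⟩ : ∃ s, s = (x - (3 / 4)) / (1 / 8) := ⟨_, rfl⟩
      obtain ⟨t, ht⟩ : ∃ t, t = ((7 / 8) - x) / (1 / 8) := ⟨_, rfl⟩
      have s0 : 0 ≤ s := by rw [hs]; exact div_nonneg (by linarith) (by norm_num)
      have t0 : 0 ≤ t := by rw [ht]; exact div_nonneg (by linarith) (by norm_num)
      have e : (x + 2 * (1 / 22)) - ((41 / 1000) + (51 / 25) * x ^ 2 + ((-28 / 25)) * x ^ 4) = (597 / 88000) * (s ^ 0 * t ^ 4) + (259 / 44000) * (s ^ 1 * t ^ 3) + (729 / 176000) * (s ^ 2 * t ^ 2) + (4281 / 176000) * (s ^ 3 * t ^ 1) + (27537 / 1408000) * (s ^ 4 * t ^ 0) := by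
        rw [hs, ht]; ring
      rw [e]; positivity
    have hb := h1
    obtain ⟨s, hs⟩ : ∃ s, s = (x - (7 / 8)) / (1 / 8) := ⟨_, rfl⟩
    obtain ⟨t, ht⟩ : ∃ t, t = ((1) - x) / (1 / 8) := ⟨_, rfl⟩
    have s0 : 0 ≤ s := by rw [hs]; exact div_nonneg (by linarith) (by norm_num)
    have t0 : 0 ≤ t := by rw [ht]; exact div_nonneg (by linarith) (by norm_num)
    have e : (x + 2 * (1 / 22)) - ((41 / 1000) + (51 / 25) * x ^ 2 + ((-28 / 25)) * x ^ 4) = (27537 / 1408000) * (s ^ 0 * t ^ 4) + (2907 / 22000) * (s ^ 1 * t ^ 3) + (28827 / 88000) * (s ^ 2 * t ^ 2) + (3791 / 11000) * (s ^ 3 * t ^ 1) + (1429 / 11000) * (s ^ 4 * t ^ 0) := by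
      rw [hs, ht]; ring
    rw [e]; positivity
  linarith

theorem top4 (x : ℝ) (h0 : 0 ≤ x) (h1 : x ≤ 1) : (41 / 1000) + (51 / 25) * x ^ 2 + ((-28 / 25)) * x ^ 4 ≤ 1 + 1 / 22 := by
  have key : 0 ≤ (1 + 1 / 22) - ((41 / 1000) + (51 / 25) * x ^ 2 + ((-28 / 25)) * x ^ 4) := by
    rcases le_total x (1 / 2) with hb | h0
    · obtain ⟨s, hs⟩ : ∃ s, s = (x - (0)) / (1 / 2) := ⟨_, rfl⟩
      obtain ⟨t, ht⟩ : ∃ t, t = ((1 / 2) - x) / (1 / 2) := ⟨_, rfl⟩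
      have s0 : 0 ≤ s := by rw [hs]; exact div_nonneg (by linarith) (by norm_num)
      have t0 : 0 ≤ t := by rw [ht]; exact div_nonneg (by linarith) (by norm_num)
      have e : (1 + 1 / 22) - ((41 / 1000) + (51 / 25) * x ^ 2 + ((-28 / 25)) * x ^ 4) = (11049 / 11000) * (s ^ 0 * t ^ 4) + (11049 / 2750) * (s ^ 1 * t ^ 3) + (15171 / 2750) * (s ^ 2 * t ^ 2) + (4122 / 1375) * (s ^ 3 * t ^ 1) + (6209 / 11000) * (s ^ 4 * t ^ 0) := by
        rw [hs, ht]; ring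
      rw [e]; positivity
    have hb := h1
    obtain ⟨s, hs⟩ : ∃ s, s = (x - (1 / 2)) / (1 / 2) := ⟨_, rfl⟩
    obtain ⟨t, ht⟩ : ∃ t, t = ((1) - x) / (1 / 2) := ⟨_, rfl⟩
    have s0 : 0 ≤ s := by rw [hs]; exact div_nonneg (by linarith) (by norm_num)
    have t0 : 0 ≤ t := by rw [ht]; exact div_nonneg (by linarith) (by norm_num)
    have e : (1 + 1 / 22) - ((41 / 1000) + (51 / 25) * x ^ 2 + ((-28 / 25)) * x ^ 4) = (6209 / 11000) * (s ^ 0 * t ^ 4) + (2087 / 1375) * (s ^ 1 * t ^ 3) + (2961 / 2750) * (s ^ 2 * t ^ 2) + (379 / 2750) * (s ^ 3 * t ^ 1) + (929 / 11000) * (s ^ 4 * t ^ 0) := by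
      rw [hs, ht]; ring
    rw [e]; positivity
  linarith

theorem near4 : Near (fun x => (41 / 1000) + (51 / 25) * x ^ 2 + ((-28 / 25)) * x ^ 4) (1 / 22) where
  cont := by fun_prop
  even := by intro x; ring
  u0 := by norm_num
  u1 := by norm_num
  lo := lo4
  neg := neg4
  hi := hi4
  top := top4
  zero := by norm_num
  one := by norm_num

theorem upper4 {n : ℕ} (hn : 4 ≤ n) : E n (fun x => |x|) ≤ 1 / 22 := by
  refine E_le (C (41 / 1000) + C (51 / 25) * X ^ 2 + C ((-28 / 25)) * X ^ 4 : ℝ[X]) ?_ ?_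
  · refine le_trans ?_ hn
    compute_degree
  · have h := near4.hdist_le
    simpa only [eval_add, eval_mul, eval_C, eval_pow, eval_X] using h

theorem lo6 (x : ℝ) (h0 : 0 ≤ x) (h1 : x ≤ 1) : x - 2 * (59 / 2000) ≤ (279 / 10000) + (307 / 100) * x ^ 2 + ((-917 / 200)) * x ^ 4 + (503 / 200) * x ^ 6 := by
  have key : 0 ≤ ((279 / 10000) + (307 / 100) * x ^ 2 + ((-917 / 200)) * x ^ 4 + (503 / 200) * x ^ 6) - (x - 2 * (59 / 2000)) := by
    rcases le_total x (1 / 8) with hb | h0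
    · obtain ⟨s, hs⟩ : ∃ s, s = (x - (0)) / (1 / 8) := ⟨_, rfl⟩
      obtain ⟨t, ht⟩ : ∃ t, t = ((1 / 8) - x) / (1 / 8) := ⟨_, rfl⟩
      have s0 : 0 ≤ s := by rw [hs]; exact div_nonneg (by linarith) (by norm_num)
      have t0 : 0 ≤ t := by rw [ht]; exact div_nonneg (by linarith) (by norm_num)
      have e : ((279 / 10000) + (307 / 100) * x ^ 2 + ((-917 / 200)) * x ^ 4 + (503 / 200) * x ^ 6) - (x - 2 * (59 / 2000)) = (869 / 10000) * (s ^ 0 * t ^ 6) + (991 / 2500) * (s ^ 1 * t ^ 5) + (23247 / 32000) * (s ^ 2 * t ^ 4) + (5439 / 8000) * (s ^ 3 * t ^ 3) + (1393431 / 4096000) * (s ^ 4 * t ^ 2) + (881011 / 10240000) * (s ^ 5 * t ^ 1) + (11480543 / 1310720000) * (s ^ 6 * t ^ 0) := by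
        rw [hs, ht]; ring
      rw [e]; positivity
    rcases le_total x (1 / 4) with hb | h0
    · obtain ⟨s, hs⟩ : ∃ s, s = (x - (1 / 8)) / (1 / 8) := ⟨_, rfl⟩
      obtain ⟨t, ht⟩ : ∃ t, t = ((1 / 4) - x) / (1 / 8) := ⟨_, rfl⟩
      have s0 : 0 ≤ s := by rw [hs]; exact div_nonneg (by linarith) (by norm_num)
      have t0 : 0 ≤ t := by rw [ht]; exact div_nonneg (by linarith) (by norm_num)
      have e : ((279 / 10000) + (307 / 100) * x ^ 2 + ((-917 / 200)) * x ^ 4 + (503 / 200) * x ^ 6) - (x - 2 * (59 / 2000)) = (11480543 / 1310720000) * (s ^ 0 * t ^ 6) + (6249277 / 327680000) * (s ^ 1 * t ^ 5) + (351821 / 65536000) * (s ^ 2 * t ^ 4) + (13551 / 8192000) * (s ^ 3 * t ^ 3) + (509629 / 16384000) * (s ^ 4 * t ^ 2) + (736797 / 20480000) * (s ^ 5 * t ^ 1) + (235087 / 20480000) * (s ^ 6 * t ^ 0) := by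
        rw [hs, ht]; ring
      rw [e]; positivity
    rcases le_total x (1 / 2) with hb | h0
    · obtain ⟨s, hs⟩ : ∃ s, s = (x - (1 / 4)) / (1 / 4) := ⟨_, rfl⟩
      obtain ⟨t, ht⟩ : ∃ t, t = ((1 / 2) - x) / (1 / 4) := ⟨_, rfl⟩
      have s0 : 0 ≤ s := by rw [hs]; exact div_nonneg (by linarith) (by norm_num)
      have t0 : 0 ≤ t := by rw [ht]; exact div_nonneg (by linarith) (by norm_num)
      have e : ((279 / 10000) + (307 / 100) * x ^ 2 + ((-917 / 200)) * x ^ 4 + (503 / 200) * x ^ 6) - (x - 2 * (59 / 2000)) = (235087 / 20480000) * (s ^ 0 * t ^ 6) + (689493 / 5120000) * (s ^ 1 * t ^ 5) + (609049 / 1024000) * (s ^ 2 * t ^ 4) + (153939 / 128000) * (s ^ 3 * t ^ 3) + (308501 / 256000) * (s ^ 4 * t ^ 2) + (185773 / 320000) * (s ^ 5 * t ^ 1) + (34283 / 320000) * (s ^ 6 * t ^ 0) := by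
        rw [hs, ht]; ring
      rw [e]; positivity
    rcases le_total x (3 / 4) with hb | h0
    · obtain ⟨s, hs⟩ : ∃ s, s = (x - (1 / 2)) / (1 / 4) := ⟨_, rfl⟩
      obtain ⟨t, ht⟩ : ∃ t, t = ((3 / 4) - x) / (1 / 4) := ⟨_, rfl⟩
      have s0 : 0 ≤ s := by rw [hs]; exact div_nonneg (by linarith) (by norm_num)
      have t0 : 0 ≤ t := by rw [ht]; exact div_nonneg (by linarith) (by norm_num)
      have e : ((279 / 10000) + (307 / 100) * x ^ 2 + ((-917 / 200)) * x ^ 4 + (503 / 200) * x ^ 6) - (x - 2 * (59 / 2000)) = (34283 / 320000) * (s ^ 0 * t ^ 6) + (225623 / 320000) * (s ^ 1 * t ^ 5) + (467901 / 256000) * (s ^ 2 * t ^ 4) + (301809 / 128000) * (s ^ 3 * t ^ 3) + (1607529 / 1024000) * (s ^ 4 * t ^ 2) + (2569343 / 5120000) * (s ^ 5 * t ^ 1) + (1242487 / 20480000) * (s ^ 6 * t ^ 0) := by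
        rw [hs, ht]; ring
      rw [e]; positivity
    rcases le_total x (7 / 8) with hb | h0
    · obtain ⟨s, hs⟩ : ∃ s, s = (x - (3 / 4)) / (1 / 8) := ⟨_, rfl⟩
      obtain ⟨t, ht⟩ : ∃ t, t = ((7 / 8) - x) / (1 / 8) := ⟨_, rfl⟩
      have s0 : 0 ≤ s := by rw [hs]; exact div_nonneg (by linarith) (by norm_num)
      have t0 : 0 ≤ t := by rw [ht]; exact div_nonneg (by linarith) (by norm_num)
      have e : ((279 / 10000) + (307 / 100) * x ^ 2 + ((-917 / 200)) * x ^ 4 + (503 / 200) * x ^ 6) - (x - 2 * (59 / 2000)) = (1242487 / 20480000) * (s ^ 0 * t ^ 6) + (6043697 / 20480000) * (s ^ 1 * t ^ 5) + (9145149 / 16384000) * (s ^ 2 * t ^ 4) + (4174851 / 8192000) * (s ^ 3 * t ^ 3) + (14737941 / 65536000) * (s ^ 4 * t ^ 2) + (13905377 / 327680000) * (s ^ 5 * t ^ 1) + (4516943 / 1310720000) * (s ^ 6 * t ^ 0) := by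
        rw [hs, ht]; ring
      rw [e]; positivity
    rcases le_total x (15 / 16) with hb | h0
    · obtain ⟨s, hs⟩ : ∃ s, s = (x - (7 / 8)) / (1 / 16) := ⟨_, rfl⟩
      obtain ⟨t, ht⟩ : ∃ t, t = ((15 / 16) - x) / (1 / 16) := ⟨_, rfl⟩
      have s0 : 0 ≤ s := by rw [hs]; exact div_nonneg (by linarith) (by norm_num)
      have t0 : 0 ≤ t := by rw [ht]; exact div_nonneg (by linarith) (by norm_num)
      have e : ((279 / 10000) + (307 / 100) * x ^ 2 + ((-917 / 200)) * x ^ 4 + (503 / 200) * x ^ 6) - (x - 2 * (59 / 2000)) = (4516943 / 1310720000) * (s ^ 0 * t ^ 6) + (12841733 / 1310720000) * (s ^ 1 * t ^ 5) + (14044701 / 1048576000) * (s ^ 2 * t ^ 4) + (15117159 / 524288000) * (s ^ 3 * t ^ 3) + (221416269 / 4194304000) * (s ^ 4 * t ^ 2) + (930231653 / 20971520000) * (s ^ 5 * t ^ 1) + (1120569727 / 83886080000) * (s ^ 6 * t ^ 0) := by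
        rw [hs, ht]; ring
      rw [e]; positivity
    have hb := h1
    obtain ⟨s, hs⟩ : ∃ s, s = (x - (15 / 16)) / (1 / 16) := ⟨_, rfl⟩
    obtain ⟨t, ht⟩ : ∃ t, t = ((1) - x) / (1 / 16) := ⟨_, rfl⟩
    have s0 : 0 ≤ s := by rw [hs]; exact div_nonneg (by linarith) (by norm_num)
    have t0 : 0 ≤ t := by rw [ht]; exact div_nonneg (by linarith) (by norm_num)
    have e : ((279 / 10000) + (307 / 100) * x ^ 2 + ((-917 / 200)) * x ^ 4 + (503 / 200) * x ^ 6) - (x - 2 * (59 / 2000)) = (1120569727 / 83886080000) * (s ^ 0 * t ^ 6) + (303934691 / 2621440000) * (s ^ 1 * t ^ 5) + (6729149 / 16384000) * (s ^ 2 * t ^ 4) + (387341 / 512000) * (s ^ 3 * t ^ 3) + (195781 / 256000) * (s ^ 4 * t ^ 2) + (16131 / 40000) * (s ^ 5 * t ^ 1) + (869 / 10000) * (s ^ 6 * t ^ 0) := by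
      rw [hs, ht]; ring
    rw [e]; positivity
  linarith

theorem neg6 (x : ℝ) (h0 : 0 ≤ x) (h1 : x ≤ 1) : -(59 / 2000) ≤ (279 / 10000) + (307 / 100) * x ^ 2 + ((-917 / 200)) * x ^ 4 + (503 / 200) * x ^ 6 := by
  have key : 0 ≤ ((279 / 10000) + (307 / 100) * x ^ 2 + ((-917 / 200)) * x ^ 4 + (503 / 200) * x ^ 6) - (-(59 / 2000)) := by
    have hb := h1
    obtain ⟨s, hs⟩ : ∃ s, s = (x - (0)) / (1) := ⟨_, rfl⟩
    obtain ⟨t, ht⟩ : ∃ t, t = ((1) - x) / (1) := ⟨_, rfl⟩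
    have s0 : 0 ≤ s := by rw [hs]; exact div_nonneg (by linarith) (by norm_num)
    have t0 : 0 ≤ t := by rw [ht]; exact div_nonneg (by linarith) (by norm_num)
    have e : ((279 / 10000) + (307 / 100) * x ^ 2 + ((-917 / 200)) * x ^ 4 + (503 / 200) * x ^ 6) - (-(59 / 2000)) = (287 / 5000) * (s ^ 0 * t ^ 6) + (861 / 2500) * (s ^ 1 * t ^ 5) + (3931 / 1000) * (s ^ 2 * t ^ 4) + (3357 / 250) * (s ^ 3 * t ^ 3) + (1837 / 125) * (s ^ 4 * t ^ 2) + (2159 / 625) * (s ^ 5 * t ^ 1) + (5287 / 5000) * (s ^ 6 * t ^ 0) := by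
      rw [hs, ht]; ring
    rw [e]; positivity
  linarith

theorem hi6 (x : ℝ) (h0 : 0 ≤ x) (h1 : x ≤ 1) : (279 / 10000) + (307 / 100) * x ^ 2 + ((-917 / 200)) * x ^ 4 + (503 / 200) * x ^ 6 ≤ x + 2 * (59 / 2000) := by
  have key : 0 ≤ (x + 2 * (59 / 2000)) - ((279 / 10000) + (307 / 100) * x ^ 2 + ((-917 / 200)) * x ^ 4 + (503 / 200) * x ^ 6) := by
    rcases le_total x (1 / 2) with hb | h0
    · obtain ⟨s, hs⟩ : ∃ s, s = (x - (0)) / (1 / 2) := ⟨_, rfl⟩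
      obtain ⟨t, ht⟩ : ∃ t, t = ((1 / 2) - x) / (1 / 2) := ⟨_, rfl⟩
      have s0 : 0 ≤ s := by rw [hs]; exact div_nonneg (by linarith) (by norm_num)
      have t0 : 0 ≤ t := by rw [ht]; exact div_nonneg (by linarith) (by norm_num)
      have e : (x + 2 * (59 / 2000)) - ((279 / 10000) + (307 / 100) * x ^ 2 + ((-917 / 200)) * x ^ 4 + (503 / 200) * x ^ 6) = (311 / 10000) * (s ^ 0 * t ^ 6) + (3433 / 5000) * (s ^ 1 * t ^ 5) + (2199 / 1000) * (s ^ 2 * t ^ 4) + (319 / 125) * (s ^ 3 * t ^ 3) + (18369 / 16000) * (s ^ 4 * t ^ 2) + (7589 / 40000) * (s ^ 5 * t ^ 1) + (3477 / 320000) * (s ^ 6 * t ^ 0) := by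
        rw [hs, ht]; ring
      rw [e]; positivity
    rcases le_total x (5 / 8) with hb | h0
    · obtain ⟨s, hs⟩ : ∃ s, s = (x - (1 / 2)) / (1 / 8) := ⟨_, rfl⟩
      obtain ⟨t, ht⟩ : ∃ t, t = ((5 / 8) - x) / (1 / 8) := ⟨_, rfl⟩
      have s0 : 0 ≤ s := by rw [hs]; exact div_nonneg (by linarith) (by norm_num)
      have t0 : 0 ≤ t := by rw [ht]; exact div_nonneg (by linarith) (by norm_num)
      have e : (x + 2 * (59 / 2000)) - ((279 / 10000) + (307 / 100) * x ^ 2 + ((-917 / 200)) * x ^ 4 + (503 / 200) * x ^ 6) = (3477 / 320000) * (s ^ 0 * t ^ 6) + (21799 / 640000) * (s ^ 1 * t ^ 5) + (30691 / 1024000) * (s ^ 2 * t ^ 4) + (2273 / 1024000) * (s ^ 3 * t ^ 3) + (53591 / 16384000) * (s ^ 4 * t ^ 2) + (2363919 / 163840000) * (s ^ 5 * t ^ 1) + (8639017 / 1310720000) * (s ^ 6 * t ^ 0) := by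
        rw [hs, ht]; ring
      rw [e]; positivity
    rcases le_total x (3 / 4) with hb | h0
    · obtain ⟨s, hs⟩ : ∃ s, s = (x - (5 / 8)) / (1 / 8) := ⟨_, rfl⟩
      obtain ⟨t, ht⟩ : ∃ t, t = ((3 / 4) - x) / (1 / 8) := ⟨_, rfl⟩
      have s0 : 0 ≤ s := by rw [hs]; exact div_nonneg (by linarith) (by norm_num)
      have t0 : 0 ≤ t := by rw [ht]; exact div_nonneg (by linarith) (by norm_num)
      have e : (x + 2 * (59 / 2000)) - ((279 / 10000) + (307 / 100) * x ^ 2 + ((-917 / 200)) * x ^ 4 + (503 / 200) * x ^ 6) = (8639017 / 1310720000) * (s ^ 0 * t ^ 6) + (21189213 / 327680000) * (s ^ 1 * t ^ 5) + (16675739 / 65536000) * (s ^ 2 * t ^ 4) + (4107359 / 8192000) * (s ^ 3 * t ^ 3) + (8564731 / 16384000) * (s ^ 4 * t ^ 2) + (5633693 / 20480000) * (s ^ 5 * t ^ 1) + (1174153 / 20480000) * (s ^ 6 * t ^ 0) := by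
        rw [hs, ht]; ring
      rw [e]; positivity
    have hb := h1
    obtain ⟨s, hs⟩ : ∃ s, s = (x - (3 / 4)) / (1 / 4) := ⟨_, rfl⟩
    obtain ⟨t, ht⟩ : ∃ t, t = ((1) - x) / (1 / 4) := ⟨_, rfl⟩
    have s0 : 0 ≤ s := by rw [hs]; exact div_nonneg (by linarith) (by norm_num)
    have t0 : 0 ≤ t := by rw [ht]; exact div_nonneg (by linarith) (by norm_num)
    have e : (x + 2 * (59 / 2000)) - ((279 / 10000) + (307 / 100) * x ^ 2 + ((-917 / 200)) * x ^ 4 + (503 / 200) * x ^ 6) = (1174153 / 20480000) * (s ^ 0 * t ^ 6) + (1233421 / 2560000) * (s ^ 1 * t ^ 5) + (101011 / 64000) * (s ^ 2 * t ^ 4) + (20201 / 8000) * (s ^ 3 * t ^ 3) + (31979 / 16000) * (s ^ 4 * t ^ 2) + (6591 / 10000) * (s ^ 5 * t ^ 1) + (311 / 10000) * (s ^ 6 * t ^ 0) := by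
      rw [hs, ht]; ring
    rw [e]; positivity
  linarith

theorem top6 (x : ℝ) (h0 : 0 ≤ x) (h1 : x ≤ 1) : (279 / 10000) + (307 / 100) * x ^ 2 + ((-917 / 200)) * x ^ 4 + (503 / 200) * x ^ 6 ≤ 1 + 59 / 2000 := by
  have key : 0 ≤ (1 + 59 / 2000) - ((279 / 10000) + (307 / 100) * x ^ 2 + ((-917 / 200)) * x ^ 4 + (503 / 200) * x ^ 6) := by
    have hb := h1
    obtain ⟨s, hs⟩ : ∃ s, s = (x - (0)) / (1) := ⟨_, rfl⟩
    obtain ⟨t, ht⟩ : ∃ t, t = ((1) - x) / (1) := ⟨_, rfl⟩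
    have s0 : 0 ≤ s := by rw [hs]; exact div_nonneg (by linarith) (by norm_num)
    have t0 : 0 ≤ t := by rw [ht]; exact div_nonneg (by linarith) (by norm_num)
    have e : (1 + 59 / 2000) - ((279 / 10000) + (307 / 100) * x ^ 2 + ((-917 / 200)) * x ^ 4 + (503 / 200) * x ^ 6) = (626 / 625) * (s ^ 0 * t ^ 6) + (3756 / 625) * (s ^ 1 * t ^ 5) + (5977 / 500) * (s ^ 2 * t ^ 4) + (969 / 125) * (s ^ 3 * t ^ 3) + (1189 / 1000) * (s ^ 4 * t ^ 2) + (7249 / 2500) * (s ^ 5 * t ^ 1) + (1 / 625) * (s ^ 6 * t ^ 0) := by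
      rw [hs, ht]; ring
    rw [e]; positivity
  linarith

theorem near6 : Near (fun x => (279 / 10000) + (307 / 100) * x ^ 2 + ((-917 / 200)) * x ^ 4 + (503 / 200) * x ^ 6) (59 / 2000) where
  cont := by fun_prop
  even := by intro x; ring
  u0 := by norm_num
  u1 := by norm_num
  lo := lo6
  neg := neg6
  hi := hi6
  top := top6
  zero := by norm_num
  one := by norm_num

theorem upper6 {n : ℕ} (hn : 6 ≤ n) : E n (fun x => |x|) ≤ 59 / 2000 := by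
  refine E_le (C (279 / 10000) + C (307 / 100) * X ^ 2 + C ((-917 / 200)) * X ^ 4 + C (503 / 200) * X ^ 6 : ℝ[X]) ?_ ?_
  · refine le_trans ?_ hn
    compute_degree
  · have h := near6.hdist_le
    simpa only [eval_add, eval_mul, eval_C, eval_pow, eval_X] using h

theorem lo8 (x : ℝ) (h0 : 0 ≤ x) (h1 : x ≤ 1) : x - 2 * (11 / 500) ≤ (21 / 1000) + (10251 / 2500) * x ^ 2 + ((-11571 / 1000)) * x ^ 4 + (76899 / 5000) * x ^ 6 + ((-8689 / 1250)) * x ^ 8 := by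
  have key : 0 ≤ ((21 / 1000) + (10251 / 2500) * x ^ 2 + ((-11571 / 1000)) * x ^ 4 + (76899 / 5000) * x ^ 6 + ((-8689 / 1250)) * x ^ 8) - (x - 2 * (11 / 500)) := by
    rcases le_total x (1 / 8) with hb | h0
    · obtain ⟨s, hs⟩ : ∃ s, s = (x - (0)) / (1 / 8) := ⟨_, rfl⟩
      obtain ⟨t, ht⟩ : ∃ t, t = ((1 / 8) - x) / (1 / 8) := ⟨_, rfl⟩
      have s0 : 0 ≤ s := by rw [hs]; exact div_nonneg (by linarith) (by norm_num)
      have t0 : 0 ≤ t := by rw [ht]; exact div_nonneg (by linarith) (by norm_num)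
      have e : ((21 / 1000) + (10251 / 2500) * x ^ 2 + ((-11571 / 1000)) * x ^ 4 + (76899 / 5000) * x ^ 6 + ((-8689 / 1250)) * x ^ 8) - (x - 2 * (11 / 500)) = (13 / 200) * (s ^ 0 * t ^ 8) + (79 / 200) * (s ^ 1 * t ^ 7) + (161451 / 160000) * (s ^ 2 * t ^ 6) + (111953 / 80000) * (s ^ 3 * t ^ 5) + (4641613 / 4096000) * (s ^ 4 * t ^ 4) + (547917 / 1024000) * (s ^ 5 * t ^ 3) + (182373859 / 1310720000) * (s ^ 6 * t ^ 2) + (2389447 / 131072000) * (s ^ 7 * t ^ 1) + (27306047 / 20971520000) * (s ^ 8 * t ^ 0) := by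
        rw [hs, ht]; ring
      rw [e]; positivity
    rcases le_total x (1 / 4) with hb | h0
    · obtain ⟨s, hs⟩ : ∃ s, s = (x - (1 / 8)) / (1 / 8) := ⟨_, rfl⟩
      obtain ⟨t, ht⟩ : ∃ t, t = ((1 / 4) - x) / (1 / 8) := ⟨_, rfl⟩
      have s0 : 0 ≤ s := by rw [hs]; exact div_nonneg (by linarith) (by norm_num)
      have t0 : 0 ≤ t := by rw [ht]; exact div_nonneg (by linarith) (by norm_num)
      have e : ((21 / 1000) + (10251 / 2500) * x ^ 2 + ((-11571 / 1000)) * x ^ 4 + (76899 / 5000) * x ^ 6 + ((-8689 / 1250)) * x ^ 8) - (x - 2 * (11 / 500)) = (27306047 / 20971520000) * (s ^ 0 * t ^ 8) + (3411577 / 1310720000) * (s ^ 1 * t ^ 7) + (4874201 / 163840000) * (s ^ 2 * t ^ 6) + (15286649 / 81920000) * (s ^ 3 * t ^ 5) + (63538179 / 131072000) * (s ^ 4 * t ^ 4) + (53258277 / 81920000) * (s ^ 5 * t ^ 3) + (19655797 / 40960000) * (s ^ 6 * t ^ 2) + (381091 / 2048000) * (s ^ 7 * t ^ 1) + (487007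 / 16384000) * (s ^ 8 * t ^ 0) := by
        rw [hs, ht]; ring
      rw [e]; positivity
    rcases le_total x (1 / 2) with hb | h0
    · obtain ⟨s, hs⟩ : ∃ s, s = (x - (1 / 4)) / (1 / 4) := ⟨_, rfl⟩
      obtain ⟨t, ht⟩ : ∃ t, t = ((1 / 2) - x) / (1 / 4) := ⟨_, rfl⟩
      have s0 : 0 ≤ s := by rw [hs]; exact div_nonneg (by linarith) (by norm_num)
      have t0 : 0 ≤ t := by rw [ht]; exact div_nonneg (by linarith) (by norm_num)
      have e : ((21 / 1000) + (10251 / 2500) * x ^ 2 + ((-11571 / 1000)) * x ^ 4 + (76899 / 5000) * x ^ 6 + ((-8689 / 1250)) * x ^ 8) - (x - 2 * (11 / 500)) = (487007 / 16384000) * (s ^ 0 * t ^ 8) + (698839 / 2048000) * (s ^ 1 * t ^ 7) + (32660579 / 20480000) * (s ^ 2 * t ^ 6) + (20252847 / 5120000) * (s ^ 3 * t ^ 5) + (5860227 / 1024000) * (s ^ 4 * t ^ 4) + (794941 / 160000) * (s ^ 5 * t ^ 3) + (649529 / 256000) * (s ^ 6 * t ^ 2) + (223843 / 320000) * (s ^ 7 * t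 ^ 1) + (12811 / 160000) * (s ^ 8 * t ^ 0) := by
        rw [hs, ht]; ring
      rw [e]; positivity
    rcases le_total x (5 / 8) with hb | h0
    · obtain ⟨s, hs⟩ : ∃ s, s = (x - (1 / 2)) / (1 / 8) := ⟨_, rfl⟩
      obtain ⟨t, ht⟩ : ∃ t, t = ((5 / 8) - x) / (1 / 8) := ⟨_, rfl⟩
      have s0 : 0 ≤ s := by rw [hs]; exact div_nonneg (by linarith) (by norm_num)
      have t0 : 0 ≤ t := by rw [ht]; exact div_nonneg (by linarith) (by norm_num)
      have e : ((21 / 1000) + (10251 / 2500) * x ^ 2 + ((-11571 / 1000)) * x ^ 4 + (76899 / 5000) * x ^ 6 + ((-8689 / 1250)) * x ^ 8) - (x - 2 * (11 / 500)) = (12811 / 160000) * (s ^ 0 * t ^ 8) + (78217 / 128000) * (s ^ 1 * t ^ 7) + (10271809 / 5120000) * (s ^ 2 * t ^ 6) + (3783463 / 1024000) * (s ^ 3 * t ^ 5) + (68275887 / 16384000) * (s ^ 4 * t ^ 4) + (481952229 / 163840000) * (s ^ 5 * t ^ 3) + (1660088927 / 1310720000) * (s ^ 6 * t ^ 2) + (19895669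 / 65536000) * (s ^ 7 * t ^ 1) + (25993399 / 838860800) * (s ^ 8 * t ^ 0) := by
        rw [hs, ht]; ring
      rw [e]; positivity
    rcases le_total x (3 / 4) with hb | h0
    · obtain ⟨s, hs⟩ : ∃ s, s = (x - (5 / 8)) / (1 / 8) := ⟨_, rfl⟩
      obtain ⟨t, ht⟩ : ∃ t, t = ((3 / 4) - x) / (1 / 8) := ⟨_, rfl⟩
      have s0 : 0 ≤ s := by rw [hs]; exact div_nonneg (by linarith) (by norm_num)
      have t0 : 0 ≤ t := by rw [ht]; exact div_nonneg (by linarith) (by norm_num)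
      have e : ((21 / 1000) + (10251 / 2500) * x ^ 2 + ((-11571 / 1000)) * x ^ 4 + (76899 / 5000) * x ^ 6 + ((-8689 / 1250)) * x ^ 8) - (x - 2 * (11 / 500)) = (25993399 / 838860800) * (s ^ 0 * t ^ 8) + (50384319 / 262144000) * (s ^ 1 * t ^ 7) + (4985519 / 10240000) * (s ^ 2 * t ^ 6) + (26128271 / 40960000) * (s ^ 3 * t ^ 5) + (58393011 / 131072000) * (s ^ 4 * t ^ 4) + (2415931 / 16384000) * (s ^ 5 * t ^ 3) + (560377 / 40960000) * (s ^ 6 * t ^ 2) + (2439 / 2048000) * (s ^ 7 * t ^ 1) + (139867 / 81920000) * (s ^ 8 * t ^ 0) := by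
        rw [hs, ht]; ring
      rw [e]; positivity
    have hb := h1
    obtain ⟨s, hs⟩ : ∃ s, s = (x - (3 / 4)) / (1 / 4) := ⟨_, rfl⟩
    obtain ⟨t, ht⟩ : ∃ t, t = ((1) - x) / (1 / 4) := ⟨_, rfl⟩
    have s0 : 0 ≤ s := by rw [hs]; exact div_nonneg (by linarith) (by norm_num)
    have t0 : 0 ≤ t := by rw [ht]; exact div_nonneg (by linarith) (by norm_num)
    have e : ((21 / 1000) + (10251 / 2500) * x ^ 2 + ((-11571 / 1000)) * x ^ 4 + (76899 / 5000) * x ^ 6 + ((-8689 / 1250)) * x ^ 8) - (x - 2 * (11 / 500)) = (139867 / 81920000) * (s ^ 0 * t ^ 8) + (395211 / 10240000) * (s ^ 1 * t ^ 7) + (1781599 / 4096000) * (s ^ 2 * t ^ 6) + (4958071 / 2560000) * (s ^ 3 * t ^ 5) + (544119 / 128000) * (s ^ 4 * t ^ 4) + (199499 / 40000) * (s ^ 5 * t ^ 3) + (243169 / 80000) * (s ^ 6 * t ^ 2) + (63 / 80) * (s ^ 7 * t ^ 1) + (23 / 1000) * (s ^ 8 * t ^ 0) := by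
      rw [hs, ht]; ring
    rw [e]; positivity
  linarith

theorem neg8 (x : ℝ) (h0 : 0 ≤ x) (h1 : x ≤ 1) : -(11 / 500) ≤ (21 / 1000) + (10251 / 2500) * x ^ 2 + ((-11571 / 1000)) * x ^ 4 + (76899 / 5000) * x ^ 6 + ((-8689 / 1250)) * x ^ 8 := by
  have key : 0 ≤ ((21 / 1000) + (10251 / 2500) * x ^ 2 + ((-11571 / 1000)) * x ^ 4 + (76899 / 5000) * x ^ 6 + ((-8689 / 1250)) * x ^ 8) - (-(11 / 500)) := by
    have hb := h1
    obtain ⟨s, hs⟩ : ∃ s, s = (x - (0)) / (1) := ⟨_, rfl⟩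
    obtain ⟨t, ht⟩ : ∃ t, t = ((1) - x) / (1) := ⟨_, rfl⟩
    have s0 : 0 ≤ s := by rw [hs]; exact div_nonneg (by linarith) (by norm_num)
    have t0 : 0 ≤ t := by rw [ht]; exact div_nonneg (by linarith) (by norm_num)
    have e : ((21 / 1000) + (10251 / 2500) * x ^ 2 + ((-11571 / 1000)) * x ^ 4 + (76899 / 5000) * x ^ 6 + ((-8689 / 1250)) * x ^ 8) - (-(11 / 500)) = (43 / 1000) * (s ^ 0 * t ^ 8) + (43 / 125) * (s ^ 1 * t ^ 7) + (13261 / 2500) * (s ^ 2 * t ^ 6) + (33763 / 1250) * (s ^ 3 * t ^ 5) + (10589 / 200) * (s ^ 4 * t ^ 4) + (9533 / 250) * (s ^ 5 * t ^ 3) + (43319 / 5000) * (s ^ 6 * t ^ 2) + (4711 / 500) * (s ^ 7 * t ^ 1) + (1001 / 1000) * (s ^ 8 * t ^ 0) := by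
      rw [hs, ht]; ring
    rw [e]; positivity
  linarith

theorem hi8 (x : ℝ) (h0 : 0 ≤ x) (h1 : x ≤ 1) : (21 / 1000) + (10251 / 2500) * x ^ 2 + ((-11571 / 1000)) * x ^ 4 + (76899 / 5000) * x ^ 6 + ((-8689 / 1250)) * x ^ 8 ≤ x + 2 * (11 / 500) := by
  have key : 0 ≤ (x + 2 * (11 / 500)) - ((21 / 1000) + (10251 / 2500) * x ^ 2 + ((-11571 / 1000)) * x ^ 4 + (76899 / 5000) * x ^ 6 + ((-8689 / 1250)) * x ^ 8) := by
    rcases le_total x (1 / 4) with hb | h0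
    · obtain ⟨s, hs⟩ : ∃ s, s = (x - (0)) / (1 / 4) := ⟨_, rfl⟩
      obtain ⟨t, ht⟩ : ∃ t, t = ((1 / 4) - x) / (1 / 4) := ⟨_, rfl⟩
      have s0 : 0 ≤ s := by rw [hs]; exact div_nonneg (by linarith) (by norm_num)
      have t0 : 0 ≤ t := by rw [ht]; exact div_nonneg (by linarith) (by norm_num)
      have e : (x + 2 * (11 / 500)) - ((21 / 1000) + (10251 / 2500) * x ^ 2 + ((-11571 / 1000)) * x ^ 4 + (76899 / 5000) * x ^ 6 + ((-8689 / 1250)) * x ^ 8) = (23 / 1000) * (s ^ 0 * t ^ 8) + (217 / 500) * (s ^ 1 * t ^ 7) + (85509 / 40000) * (s ^ 2 * t ^ 6) + (100007 / 20000) * (s ^ 3 * t ^ 5) + (335927 / 51200) * (s ^ 4 * t ^ 4) + (325971 / 64000) * (s ^ 5 * t ^ 3) + (47458621 / 20480000) * (s ^ 6 * t ^ 2) + (1166617 / 2048000) * (s ^ 7 * t ^ 1) + (190957 / 3276800) * (s ^ 8 * t ^ 0) := by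
        rw [hs, ht]; ring
      rw [e]; positivity
    rcases le_total x (3 / 8) with hb | h0
    · obtain ⟨s, hs⟩ : ∃ s, s = (x - (1 / 4)) / (1 / 8) := ⟨_, rfl⟩
      obtain ⟨t, ht⟩ : ∃ t, t = ((3 / 8) - x) / (1 / 8) := ⟨_, rfl⟩
      have s0 : 0 ≤ s := by rw [hs]; exact div_nonneg (by linarith) (by norm_num)
      have t0 : 0 ≤ t := by rw [ht]; exact div_nonneg (by linarith) (by norm_num)
      have e : (x + 2 * (11 / 500)) - ((21 / 1000) + (10251 / 2500) * x ^ 2 + ((-11571 / 1000)) * x ^ 4 + (76899 / 5000) * x ^ 6 + ((-8689 / 1250)) * x ^ 8) = (190957 / 3276800) * (s ^ 0 * t ^ 8) + (848869 / 2048000) * (s ^ 1 * t ^ 7) + (51613163 / 40960000) * (s ^ 2 * t ^ 6) + (174790989 / 81920000) * (s ^ 3 * t ^ 5) + (287652749 / 131072000) * (s ^ 4 * t ^ 4) + (57314617 / 40960000) * (s ^ 5 * t ^ 3) + (88167897 / 163840000) * (s ^ 6 * t ^ 2) + (5967169 / 52428800) * (s ^ 7 * t ^ 1) + (8515081 / 838860800)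 * (s ^ 8 * t ^ 0) := by
        rw [hs, ht]; ring
      rw [e]; positivity
    rcases le_total x (7 / 16) with hb | h0
    · obtain ⟨s, hs⟩ : ∃ s, s = (x - (3 / 8)) / (1 / 16) := ⟨_, rfl⟩
      obtain ⟨t, ht⟩ : ∃ t, t = ((7 / 16) - x) / (1 / 16) := ⟨_, rfl⟩
      have s0 : 0 ≤ s := by rw [hs]; exact div_nonneg (by linarith) (by norm_num)
      have t0 : 0 ≤ t := by rw [ht]; exact div_nonneg (by linarith) (by norm_num)
      have e : (x + 2 * (11 / 500)) - ((21 / 1000) + (10251 / 2500) * x ^ 2 + ((-11571 / 1000)) * x ^ 4 + (76899 / 5000) * x ^ 6 + ((-8689 / 1250)) * x ^ 8) = (8515081 / 838860800) * (s ^ 0 * t ^ 8) + (2722181 / 41943040) * (s ^ 1 * t ^ 7) + (3701570379 / 20971520000) * (s ^ 2 * t ^ 6) + (5568229523 / 20971520000) * (s ^ 3 * t ^ 5) + (8081229119 / 33554432000) * (s ^ 4 * t ^ 4) + (11339398047 / 83886080000) * (s ^ 5 * t ^ 3) + (3139320551 / 67108864000) * (s ^ 6 * t ^ 2)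 + (3268137517 / 335544320000) * (s ^ 7 * t ^ 1) + (5676771313 / 5368709120000) * (s ^ 8 * t ^ 0) := by
        rw [hs, ht]; ring
      rw [e]; positivity
    rcases le_total x (1 / 2) with hb | h0
    · obtain ⟨s, hs⟩ : ∃ s, s = (x - (7 / 16)) / (1 / 16) := ⟨_, rfl⟩
      obtain ⟨t, ht⟩ : ∃ t, t = ((1 / 2) - x) / (1 / 16) := ⟨_, rfl⟩
      have s0 : 0 ≤ s := by rw [hs]; exact div_nonneg (by linarith) (by norm_num)
      have t0 : 0 ≤ t := by rw [ht]; exact div_nonneg (by linarith) (by norm_num)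
      have e : (x + 2 * (11 / 500)) - ((21 / 1000) + (10251 / 2500) * x ^ 2 + ((-11571 / 1000)) * x ^ 4 + (76899 / 5000) * x ^ 6 + ((-8689 / 1250)) * x ^ 8) = (5676771313 / 5368709120000) * (s ^ 0 * t ^ 8) + (602158449 / 83886080000) * (s ^ 1 * t ^ 7) + (2420019177 / 83886080000) * (s ^ 2 * t ^ 6) + (428557597 / 5242880000) * (s ^ 3 * t ^ 5) + (40100017 / 262144000) * (s ^ 4 * t ^ 4) + (7348729 / 40960000) * (s ^ 5 * t ^ 3) + (2585287 / 20480000) * (s ^ 6 * t ^ 2) + (62349 / 1280000) * (s ^ 7 * t ^ 1) + (1269 / 160000) * (s ^ 8 * t ^ 0) := by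
        rw [hs, ht]; ring
      rw [e]; positivity
    rcases le_total x (3 / 4) with hb | h0
    · obtain ⟨s, hs⟩ : ∃ s, s = (x - (1 / 2)) / (1 / 4) := ⟨_, rfl⟩
      obtain ⟨t, ht⟩ : ∃ t, t = ((3 / 4) - x) / (1 / 4) := ⟨_, rfl⟩
      have s0 : 0 ≤ s := by rw [hs]; exact div_nonneg (by linarith) (by norm_num)
      have t0 : 0 ≤ t := by rw [ht]; exact div_nonneg (by linarith) (by norm_num)
      have e : (x + 2 * (11 / 500)) - ((21 / 1000) + (10251 / 2500) * x ^ 2 + ((-11571 / 1000)) * x ^ 4 + (76899 / 5000) * x ^ 6 + ((-8689 / 1250)) * x ^ 8) = (1269 / 160000) * (s ^ 0 * t ^ 8) + (39171 / 320000) * (s ^ 1 * t ^ 7) + (962827 / 1280000) * (s ^ 2 * t ^ 6) + (748063 / 320000) * (s ^ 3 * t ^ 5) + (4170957 / 1024000) * (s ^ 4 * t ^ 4) + (21106103 / 5120000) * (s ^ 5 * t ^ 3) + (48704357 / 20480000) * (s ^ 6 * t ^ 2) + (7324437 / 10240000) * (s ^ 7 * t ^ 1) + (7069093 / 81920000) * (s ^ 8 *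 t ^ 0) := by
        rw [hs, ht]; ring
      rw [e]; positivity
    rcases le_total x (7 / 8) with hb | h0
    · obtain ⟨s, hs⟩ : ∃ s, s = (x - (3 / 4)) / (1 / 8) := ⟨_, rfl⟩
      obtain ⟨t, ht⟩ : ∃ t, t = ((7 / 8) - x) / (1 / 8) := ⟨_, rfl⟩
      have s0 : 0 ≤ s := by rw [hs]; exact div_nonneg (by linarith) (by norm_num)
      have t0 : 0 ≤ t := by rw [ht]; exact div_nonneg (by linarith) (by norm_num)
      have e : (x + 2 * (11 / 500)) - ((21 / 1000) + (10251 / 2500) * x ^ 2 + ((-11571 / 1000)) * x ^ 4 + (76899 / 5000) * x ^ 6 + ((-8689 / 1250)) * x ^ 8) = (7069093 / 81920000) * (s ^ 0 * t ^ 8) + (6941421 / 10240000) * (s ^ 1 * t ^ 7) + (93215431 / 40960000) * (s ^ 2 * t ^ 6) + (347866991 / 81920000) * (s ^ 3 * t ^ 5) + (627757821 / 131072000) * (s ^ 4 * t ^ 4) + (271850743 / 81920000) * (s ^ 5 * t ^ 3) + (111920911 / 81920000) * (s ^ 6 * t ^ 2) + (79261311 / 262144000) * (s ^ 7 * t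 ^ 1) + (921105 / 33554432) * (s ^ 8 * t ^ 0) := by
        rw [hs, ht]; ring
      rw [e]; positivity
    rcases le_total x (15 / 16) with hb | h0
    · obtain ⟨s, hs⟩ : ∃ s, s = (x - (7 / 8)) / (1 / 16) := ⟨_, rfl⟩
      obtain ⟨t, ht⟩ : ∃ t, t = ((15 / 16) - x) / (1 / 16) := ⟨_, rfl⟩
      have s0 : 0 ≤ s := by rw [hs]; exact div_nonneg (by linarith) (by norm_num)
      have t0 : 0 ≤ t := by rw [ht]; exact div_nonneg (by linarith) (by norm_num)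
      have e : (x + 2 * (11 / 500)) - ((21 / 1000) + (10251 / 2500) * x ^ 2 + ((-11571 / 1000)) * x ^ 4 + (76899 / 5000) * x ^ 6 + ((-8689 / 1250)) * x ^ 8) = (921105 / 33554432) * (s ^ 0 * t ^ 8) + (186891753 / 1048576000) * (s ^ 1 * t ^ 7) + (10141697059 / 20971520000) * (s ^ 2 * t ^ 6) + (2953774259 / 4194304000) * (s ^ 3 * t ^ 5) + (3930636291 / 6710886400) * (s ^ 4 * t ^ 4) + (22784921843 / 83886080000) * (s ^ 5 * t ^ 3) + (21246140747 / 335544320000) * (s ^ 6 * t ^ 2) + (468925149 / 67108864000) * (s ^ 7 * t ^ 1) + (1073462717 / 1073741824000) * (s ^ 8 * t ^ 0) := by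
        rw [hs, ht]; ring
      rw [e]; positivity
    have hb := h1
    obtain ⟨s, hs⟩ : ∃ s, s = (x - (15 / 16)) / (1 / 16) := ⟨_, rfl⟩
    obtain ⟨t, ht⟩ : ∃ t, t = ((1) - x) / (1 / 16) := ⟨_, rfl⟩
    have s0 : 0 ≤ s := by rw [hs]; exact div_nonneg (by linarith) (by norm_num)
    have t0 : 0 ≤ t := by rw [ht]; exact div_nonneg (by linarith) (by norm_num)
    have e : (x + 2 * (11 / 500)) - ((21 / 1000) + (10251 / 2500) * x ^ 2 + ((-11571 / 1000)) * x ^ 4 + (76899 / 5000) * x ^ 6 + ((-8689 / 1250)) * x ^ 8) = (1073462717 / 1073741824000) * (s ^ 0 * t ^ 8) + (18891799 / 2097152000) * (s ^ 1 * t ^ 7) + (6498143853 / 83886080000) * (s ^ 2 * t ^ 6) + (915236089 / 2621440000) * (s ^ 3 * t ^ 5) + (1090313 / 1310720) * (s ^ 4 * t ^ 4) + (36039 / 32000) * (s ^ 5 * t ^ 3) + (1124071 / 1280000) * (s ^ 6 * t ^ 2) + (2953 / 8000) * (s ^ 7 * t ^ 1) + (13 / 200) * (s ^ 8 * t ^ 0) := by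
      rw [hs, ht]; ring
    rw [e]; positivity
  linarith

theorem top8 (x : ℝ) (h0 : 0 ≤ x) (h1 : x ≤ 1) : (21 / 1000) + (10251 / 2500) * x ^ 2 + ((-11571 / 1000)) * x ^ 4 + (76899 / 5000) * x ^ 6 + ((-8689 / 1250)) * x ^ 8 ≤ 1 + 11 / 500 := by
  have key : 0 ≤ (1 + 11 / 500) - ((21 / 1000) + (10251 / 2500) * x ^ 2 + ((-11571 / 1000)) * x ^ 4 + (76899 / 5000) * x ^ 6 + ((-8689 / 1250)) * x ^ 8) := by
    rcases le_total x (1 / 2) with hb | h0
    · obtain ⟨s, hs⟩ : ∃ s, s = (x - (0)) / (1 / 2) := ⟨_, rfl⟩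
      obtain ⟨t, ht⟩ : ∃ t, t = ((1 / 2) - x) / (1 / 2) := ⟨_, rfl⟩
      have s0 : 0 ≤ s := by rw [hs]; exact div_nonneg (by linarith) (by norm_num)
      have t0 : 0 ≤ t := by rw [ht]; exact div_nonneg (by linarith) (by norm_num)
      have e : (1 + 11 / 500) - ((21 / 1000) + (10251 / 2500) * x ^ 2 + ((-11571 / 1000)) * x ^ 4 + (76899 / 5000) * x ^ 6 + ((-8689 / 1250)) * x ^ 8) = (1001 / 1000) * (s ^ 0 * t ^ 8) + (1001 / 125) * (s ^ 1 * t ^ 7) + (270029 / 10000) * (s ^ 2 * t ^ 6) + (249527 / 5000) * (s ^ 3 * t ^ 5) + (886667 / 16000) * (s ^ 4 * t ^ 4) + (153787 / 4000) * (s ^ 5 * t ^ 3) + (5360101 / 320000) * (s ^ 6 * t ^ 2) + (1093 / 256) * (s ^ 7 * t ^ 1) + (77749 / 160000) * (s ^ 8 * t ^ 0) := by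
        rw [hs, ht]; ring
      rw [e]; positivity
    rcases le_total x (3 / 4) with hb | h0
    · obtain ⟨s, hs⟩ : ∃ s, s = (x - (1 / 2)) / (1 / 4) := ⟨_, rfl⟩
      obtain ⟨t, ht⟩ : ∃ t, t = ((3 / 4) - x) / (1 / 4) := ⟨_, rfl⟩
      have s0 : 0 ≤ s := by rw [hs]; exact div_nonneg (by linarith) (by norm_num)
      have t0 : 0 ≤ t := by rw [ht]; exact div_nonneg (by linarith) (by norm_num)
      have e : (1 + 11 / 500) - ((21 / 1000) + (10251 / 2500) * x ^ 2 + ((-11571 / 1000)) * x ^ 4 + (76899 / 5000) * x ^ 6 + ((-8689 / 1250)) * x ^ 8) = (77749 / 160000) * (s ^ 0 * t ^ 8) + (1182851 / 320000) * (s ^ 1 * t ^ 7) + (15854347 / 1280000) * (s ^ 2 * t ^ 6) + (7633823 / 320000) * (s ^ 3 * t ^ 5) + (29473997 / 1024000) * (s ^ 4 * t ^ 4) + (113358263 / 5120000) * (s ^ 5 * t ^ 3) + (215288677 / 20480000) * (s ^ 6 * t ^ 2) + (28562197 / 10240000) * (s ^ 7 * t ^ 1) + (25746853 / 81920000) * (s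 ^ 8 * t ^ 0) := by
        rw [hs, ht]; ring
      rw [e]; positivity
    rcases le_total x (7 / 8) with hb | h0
    · obtain ⟨s, hs⟩ : ∃ s, s = (x - (3 / 4)) / (1 / 8) := ⟨_, rfl⟩
      obtain ⟨t, ht⟩ : ∃ t, t = ((7 / 8) - x) / (1 / 8) := ⟨_, rfl⟩
      have s0 : 0 ≤ s := by rw [hs]; exact div_nonneg (by linarith) (by norm_num)
      have t0 : 0 ≤ t := by rw [ht]; exact div_nonneg (by linarith) (by norm_num)
      have e : (1 + 11 / 500) - ((21 / 1000) + (10251 / 2500) * x ^ 2 + ((-11571 / 1000)) * x ^ 4 + (76899 / 5000) * x ^ 6 + ((-8689 / 1250)) * x ^ 8) = (25746853 / 81920000) * (s ^ 0 * t ^ 8) + (24339181 / 10240000) * (s ^ 1 * t ^ 7) + (318864071 / 40960000) * (s ^ 2 * t ^ 6) + (1178781551 / 81920000) * (s ^ 3 * t ^ 5) + (2146226941 / 131072000) * (s ^ 4 * t ^ 4) + (959405303 / 81920000) * (s ^ 5 * t ^ 3) + (419858191 / 81920000) * (s ^ 6 * t ^ 2) + (328035967 / 262144000) * (s ^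 7 * t ^ 1) + (547151437 / 4194304000) * (s ^ 8 * t ^ 0) := by
        rw [hs, ht]; ring
      rw [e]; positivity
    have hb := h1
    obtain ⟨s, hs⟩ : ∃ s, s = (x - (7 / 8)) / (1 / 8) := ⟨_, rfl⟩
    obtain ⟨t, ht⟩ : ∃ t, t = ((1) - x) / (1 / 8) := ⟨_, rfl⟩
    have s0 : 0 ≤ s := by rw [hs]; exact div_nonneg (by linarith) (by norm_num)
    have t0 : 0 ≤ t := by rw [ht]; exact div_nonneg (by linarith) (by norm_num)
    have e : (1 + 11 / 500) - ((21 / 1000) + (10251 / 2500) * x ^ 2 + ((-11571 / 1000)) * x ^ 4 + (76899 / 5000) * x ^ 6 + ((-8689 / 1250)) * x ^ 8) = (547151437 / 4194304000) * (s ^ 0 * t ^ 8) + (21911547 / 26214400) * (s ^ 1 * t ^ 7) + (2905513661 / 1310720000) * (s ^ 2 * t ^ 6) + (255523929 / 81920000) * (s ^ 3 * t ^ 5) + (5115521 / 2048000) * (s ^ 4 * t ^ 4) + (190347 / 160000) * (s ^ 5 * t ^ 3) + (135671 / 320000) * (s ^ 6 * t ^ 2) + (669 / 4000) * (s ^ 7 * t ^ 1) + (43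 / 1000) * (s ^ 8 * t ^ 0) := by
      rw [hs, ht]; ring
    rw [e]; positivity
  linarith

theorem near8 : Near (fun x => (21 / 1000) + (10251 / 2500) * x ^ 2 + ((-11571 / 1000)) * x ^ 4 + (76899 / 5000) * x ^ 6 + ((-8689 / 1250)) * x ^ 8) (11 / 500) where
  cont := by fun_prop
  even := by intro x; ring
  u0 := by norm_num
  u1 := by norm_num
  lo := lo8
  neg := neg8
  hi := hi8
  top := top8
  zero := by norm_num
  one := by norm_num

theorem upper8 {n : ℕ} (hn : 8 ≤ n) : E n (fun x => |x|) ≤ 11 / 500 := by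
  refine E_le (C (21 / 1000) + C (10251 / 2500) * X ^ 2 + C ((-11571 / 1000)) * X ^ 4 + C (76899 / 5000) * X ^ 6 + C ((-8689 / 1250)) * X ^ 8 : ℝ[X]) ?_ ?_
  · refine le_trans ?_ hn
    compute_degree
  · have h := near8.hdist_le
    simpa only [eval_add, eval_mul, eval_C, eval_pow, eval_X] using h

theorem lo10 (x : ℝ) (h0 : 0 ≤ x) (h1 : x ≤ 1) : x - 2 * (7 / 400) ≤ (169 / 10000) + (25649 / 5000) * x ^ 2 + ((-58113 / 2500)) * x ^ 4 + (543163 / 10000) * x ^ 6 + ((-563927 / 10000)) * x ^ 8 + (211917 / 10000) * x ^ 10 := by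
  have key : 0 ≤ ((169 / 10000) + (25649 / 5000) * x ^ 2 + ((-58113 / 2500)) * x ^ 4 + (543163 / 10000) * x ^ 6 + ((-563927 / 10000)) * x ^ 8 + (211917 / 10000) * x ^ 10) - (x - 2 * (7 / 400)) := by
    rcases le_total x (1 / 16) with hb | h0
    · obtain ⟨s, hs⟩ : ∃ s, s = (x - (0)) / (1 / 16) := ⟨_, rfl⟩
      obtain ⟨t, ht⟩ : ∃ t, t = ((1 / 16) - x) / (1 / 16) := ⟨_, rfl⟩
      have s0 : 0 ≤ s := by rw [hs]; exact div_nonneg (by linarith) (by norm_num)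
      have t0 : 0 ≤ t := by rw [ht]; exact div_nonneg (by linarith) (by norm_num)
      have e : ((169 / 10000) + (25649 / 5000) * x ^ 2 + ((-58113 / 2500)) * x ^ 4 + (543163 / 10000) * x ^ 6 + ((-563927 / 10000)) * x ^ 8 + (211917 / 10000) * x ^ 10) - (x - 2 * (7 / 400)) = (519 / 10000) * (s ^ 0 * t ^ 10) + (913 / 2000) * (s ^ 1 * t ^ 9) + (2295089 / 1280000) * (s ^ 2 * t ^ 8) + (662129 / 160000) * (s ^ 3 * t ^ 7) + (1017400063 / 163840000) * (s ^ 4 * t ^ 6) + (518046973 / 81920000) * (s ^ 5 * t ^ 5) + (741781540283 / 167772160000) * (s ^ 6 * t ^ 4) + (17557883583 / 8388608000) * (s ^ 7 * t ^ 3) + (5508474939349 / 8589934592000) * (s ^ 8 * t ^ 2) + (492594146261 / 4294967296000) * (s ^ 9 * t ^ 1) + (99910554969293 / 10995116277760000) * (s ^ 10 * t ^ 0) := by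
        rw [hs, ht]; ring
      rw [e]; positivity
    rcases le_total x (1 / 8) with hb | h0
    · obtain ⟨s, hs⟩ : ∃ s, s = (x - (1 / 16)) / (1 / 16) := ⟨_, rfl⟩
      obtain ⟨t, ht⟩ : ∃ t, t = ((1 / 8) - x) / (1 / 16) := ⟨_, rfl⟩
      have s0 : 0 ≤ s := by rw [hs]; exact div_nonneg (by linarith) (by norm_num)
      have t0 : 0 ≤ t := by rw [ht]; exact div_nonneg (by linarith) (by norm_num)
      have e : ((169 / 10000) + (25649 / 5000) * x ^ 2 + ((-58113 / 2500)) * x ^ 4 + (543163 / 10000) * x ^ 6 + ((-563927 / 10000)) * x ^ 8 + (211917 / 10000) * x ^ 10) - (x - 2 * (7 / 400)) = (99910554969293 / 10995116277760000) * (s ^ 0 * t ^ 10) + (7371700849577 / 109951162777600) * (s ^ 1 * t ^ 9) + (116800477856629 / 549755813888000) * (s ^ 2 * t ^ 8) + (515540535103 / 1374389534720) * (s ^ 3 * t ^ 7) + (137490529731989 / 343597383680000) * (s ^ 4 * t ^ 6) + (22641732090483 / 85899345920000)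 * (s ^ 5 * t ^ 5) + (9595162939349 / 85899345920000) * (s ^ 6 * t ^ 4) + (446688553283 / 10737418240000) * (s ^ 7 * t ^ 3) + (913262306057 / 42949672960000) * (s ^ 8 * t ^ 2) + (95645448321 / 10737418240000) * (s ^ 9 * t ^ 1) + (16985372173 / 10737418240000) * (s ^ 10 * t ^ 0) := by
        rw [hs, ht]; ring
      rw [e]; positivity
    rcases le_total x (1 / 4) with hb | h0
    · obtain ⟨s, hs⟩ : ∃ s, s = (x - (1 / 8)) / (1 / 8) := ⟨_, rfl⟩
      obtain ⟨t, ht⟩ : ∃ t, t = ((1 / 4) - x) / (1 / 8) := ⟨_, rfl⟩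
      have s0 : 0 ≤ s := by rw [hs]; exact div_nonneg (by linarith) (by norm_num)
      have t0 : 0 ≤ t := by rw [ht]; exact div_nonneg (by linarith) (by norm_num)
      have e : ((169 / 10000) + (25649 / 5000) * x ^ 2 + ((-58113 / 2500)) * x ^ 4 + (543163 / 10000) * x ^ 6 + ((-563927 / 10000)) * x ^ 8 + (211917 / 10000) * x ^ 10) - (x - 2 * (7 / 400)) = (16985372173 / 10737418240000) * (s ^ 0 * t ^ 10) + (79567567137 / 2684354560000) * (s ^ 1 * t ^ 9) + (656870956697 / 2684354560000) * (s ^ 2 * t ^ 8) + (178111597619 / 167772160000) * (s ^ 3 * t ^ 7) + (917568035381 / 335544320000) * (s ^ 4 * t ^ 6) + (375936022707 / 83886080000) * (s ^ 5 * t ^ 5) + (404288224709 / 83886080000) * (s ^ 6 * t ^ 4) + (1426304651 / 419430400) * (s ^ 7 * t ^ 3) + (12748511029 / 8388608000) * (s ^ 8 * t ^ 2) + (819700909 / 2097152000) * (s ^ 9 * t ^ 1) + (462752093 / 10485760000) * (s ^ 10 * t ^ 0) := by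
        rw [hs, ht]; ring
      rw [e]; positivity
    rcases le_total x (1 / 2) with hb | h0
    · obtain ⟨s, hs⟩ : ∃ s, s = (x - (1 / 4)) / (1 / 4) := ⟨_, rfl⟩
      obtain ⟨t, ht⟩ : ∃ t, t = ((1 / 2) - x) / (1 / 4) := ⟨_, rfl⟩
      have s0 : 0 ≤ s := by rw [hs]; exact div_nonneg (by linarith) (by norm_num)
      have t0 : 0 ≤ t := by rw [ht]; exact div_nonneg (by linarith) (by norm_num)
      have e : ((169 / 10000) + (25649 / 5000) * x ^ 2 + ((-58113 / 2500)) * x ^ 4 + (543163 / 10000) * x ^ 6 + ((-563927 / 10000)) * x ^ 8 + (211917 / 10000) * x ^ 10) - (x - 2 * (7 / 400)) = (462752093 / 10485760000) * (s ^ 0 * t ^ 10) + (56855537 / 104857600) * (s ^ 1 * t ^ 9) + (1491895369 / 524288000) * (s ^ 2 * t ^ 8) + (275144467 / 32768000) * (s ^ 3 * t ^ 7) + (5056790549 / 327680000) * (s ^ 4 * t ^ 6) + (1511499723 / 81920000) * (s ^ 5 * t ^ 5) + (1189043849 / 81920000) * (s ^ 6 * t ^ 4) +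 (75799343 / 10240000) * (s ^ 7 * t ^ 3) + (95687897 / 40960000) * (s ^ 8 * t ^ 2) + (4209321 / 10240000) * (s ^ 9 * t ^ 1) + (313633 / 10240000) * (s ^ 10 * t ^ 0) := by
        rw [hs, ht]; ring
      rw [e]; positivity
    rcases le_total x (5 / 8) with hb | h0
    · obtain ⟨s, hs⟩ : ∃ s, s = (x - (1 / 2)) / (1 / 8) := ⟨_, rfl⟩
      obtain ⟨t, ht⟩ : ∃ t, t = ((5 / 8) - x) / (1 / 8) := ⟨_, rfl⟩
      have s0 : 0 ≤ s := by rw [hs]; exact div_nonneg (by linarith) (by norm_num)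
      have t0 : 0 ≤ t := by rw [ht]; exact div_nonneg (by linarith) (by norm_num)
      have e : ((169 / 10000) + (25649 / 5000) * x ^ 2 + ((-58113 / 2500)) * x ^ 4 + (543163 / 10000) * x ^ 6 + ((-563927 / 10000)) * x ^ 8 + (211917 / 10000) * x ^ 10) - (x - 2 * (7 / 400)) = (313633 / 10240000) * (s ^ 0 * t ^ 10) + (5199669 / 20480000) * (s ^ 1 * t ^ 9) + (149166689 / 163840000) * (s ^ 2 * t ^ 8) + (30135791 / 16384000) * (s ^ 3 * t ^ 7) + (2986712729 / 1310720000) * (s ^ 4 * t ^ 6) + (4605285567 / 2621440000) * (s ^ 5 * t ^ 5) + (16940100173 / 20971520000) * (s ^ 6 * t ^ 4) + (4053658987 / 20971520000) * (s ^ 7 * t ^ 3) + (11047144973 / 671088640000) * (s ^ 8 * t ^ 2) + (460066097 / 268435456000) * (s ^ 9 * t ^ 1) + (11149538981 / 10737418240000) * (s ^ 10 * t ^ 0) := by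
        rw [hs, ht]; ring
      rw [e]; positivity
    rcases le_total x (3 / 4) with hb | h0
    · obtain ⟨s, hs⟩ : ∃ s, s = (x - (5 / 8)) / (1 / 8) := ⟨_, rfl⟩
      obtain ⟨t, ht⟩ : ∃ t, t = ((3 / 4) - x) / (1 / 8) := ⟨_, rfl⟩
      have s0 : 0 ≤ s := by rw [hs]; exact div_nonneg (by linarith) (by norm_num)
      have t0 : 0 ≤ t := by rw [ht]; exact div_nonneg (by linarith) (by norm_num)
      have e : ((169 / 10000) + (25649 / 5000) * x ^ 2 + ((-58113 / 2500)) * x ^ 4 + (543163 / 10000) * x ^ 6 + ((-563927 / 10000)) * x ^ 8 + (211917 / 10000) * x ^ 10) - (x - 2 * (7 / 400)) = (11149538981 / 10737418240000) * (s ^ 0 * t ^ 10) + (10229406787 / 536870912000) * (s ^ 1 * t ^ 9) + (463105936577 / 2684354560000) * (s ^ 2 * t ^ 8) + (137596443981 / 167772160000) * (s ^ 3 * t ^ 7) + (765908179693 / 335544320000) * (s ^ 4 * t ^ 6) + (334945683709 / 83886080000) * (s ^ 5 * t ^ 5) + (380602816301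 / 83886080000) * (s ^ 6 * t ^ 4) + (7029955753 / 2097152000) * (s ^ 7 * t ^ 3) + (65223078529 / 41943040000) * (s ^ 8 * t ^ 2) + (4314713423 / 10485760000) * (s ^ 9 * t ^ 1) + (496625637 / 10485760000) * (s ^ 10 * t ^ 0) := by
        rw [hs, ht]; ring
      rw [e]; positivity
    rcases le_total x (7 / 8) with hb | h0
    · obtain ⟨s, hs⟩ : ∃ s, s = (x - (3 / 4)) / (1 / 8) := ⟨_, rfl⟩
      obtain ⟨t, ht⟩ : ∃ t, t = ((7 / 8) - x) / (1 / 8) := ⟨_, rfl⟩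
      have s0 : 0 ≤ s := by rw [hs]; exact div_nonneg (by linarith) (by norm_num)
      have t0 : 0 ≤ t := by rw [ht]; exact div_nonneg (by linarith) (by norm_num)
      have e : ((169 / 10000) + (25649 / 5000) * x ^ 2 + ((-58113 / 2500)) * x ^ 4 + (543163 / 10000) * x ^ 6 + ((-563927 / 10000)) * x ^ 8 + (211917 / 10000) * x ^ 10) - (x - 2 * (7 / 400)) = (496625637 / 10485760000) * (s ^ 0 * t ^ 10) + (5617799317 / 10485760000) * (s ^ 1 * t ^ 9) + (112134170713 / 41943040000) * (s ^ 2 * t ^ 8) + (81184413959 / 10485760000) * (s ^ 3 * t ^ 7) + (1207194945629 / 83886080000) * (s ^ 4 * t ^ 6) + (1502130151807 / 83886080000) * (s ^ 5 * t ^ 5) + (5056691900821 / 335544320000) * (s ^ 6 * t ^ 4) + (283323742443 / 33554432000) * (s ^ 7 * t ^ 3) + (1612025023981 / 536870912000) * (s ^ 8 * t ^ 2) + (327095785009 / 536870912000) * (s ^ 9 * t ^ 1) + (573152618557 / 10737418240000) * (s ^ 10 * t ^ 0)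 := by
        rw [hs, ht]; ring
      rw [e]; positivity
    rcases le_total x (15 / 16) with hb | h0
    · obtain ⟨s, hs⟩ : ∃ s, s = (x - (7 / 8)) / (1 / 16) := ⟨_, rfl⟩
      obtain ⟨t, ht⟩ : ∃ t, t = ((15 / 16) - x) / (1 / 16) := ⟨_, rfl⟩
      have s0 : 0 ≤ s := by rw [hs]; exact div_nonneg (by linarith) (by norm_num)
      have t0 : 0 ≤ t := by rw [ht]; exact div_nonneg (by linarith) (by norm_num)
      have e : ((169 / 10000) + (25649 / 5000) * x ^ 2 + ((-58113 / 2500)) * x ^ 4 + (543163 / 10000) * x ^ 6 + ((-563927 / 10000)) * x ^ 8 + (211917 / 10000) * x ^ 10) - (x - 2 * (7 / 400)) = (573152618557 / 10737418240000) * (s ^ 0 * t ^ 10) + (1065266285653 / 2147483648000) * (s ^ 1 * t ^ 9) + (17547117418069 / 8589934592000) * (s ^ 2 * t ^ 8) + (10513555279887 / 2147483648000) * (s ^ 3 * t ^ 7) + (647372973059941 / 85899345920000) * (s ^ 4 * t ^ 6) + (665845192898443 / 85899345920000)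 * (s ^ 5 * t ^ 5) + (1842718772289941 / 343597383680000) * (s ^ 6 * t ^ 4) + (420133759277291 / 171798691840000) * (s ^ 7 * t ^ 3) + (1914300599886457 / 2748779069440000) * (s ^ 8 * t ^ 2) + (12165192566737 / 109951162777600) * (s ^ 9 * t ^ 1) + (81668716170669 / 10995116277760000) * (s ^ 10 * t ^ 0) := by
        rw [hs, ht]; ring
      rw [e]; positivity
    rcases le_total x (31 / 32) with hb | h0
    · obtain ⟨s, hs⟩ : ∃ s, s = (x - (15 / 16)) / (1 / 32) := ⟨_, rfl⟩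
      obtain ⟨t, ht⟩ : ∃ t, t = ((31 / 32) - x) / (1 / 32) := ⟨_, rfl⟩
      have s0 : 0 ≤ s := by rw [hs]; exact div_nonneg (by linarith) (by norm_num)
      have t0 : 0 ≤ t := by rw [ht]; exact div_nonneg (by linarith) (by norm_num)
      have e : ((169 / 10000) + (25649 / 5000) * x ^ 2 + ((-58113 / 2500)) * x ^ 4 + (543163 / 10000) * x ^ 6 + ((-563927 / 10000)) * x ^ 8 + (211917 / 10000) * x ^ 10) - (x - 2 * (7 / 400)) = (81668716170669 / 10995116277760000) * (s ^ 0 * t ^ 10) + (123354222844637 / 2199023255552000) * (s ^ 1 * t ^ 9) + (7887012518476873 / 43980465111040000) * (s ^ 2 * t ^ 8) + (3417337278255251 / 10995116277760000) * (s ^ 3 * t ^ 7) + (27020710428637877 / 87960930222080000) * (s ^ 4 * t ^ 6) + (14299968464622499 / 87960930222080000) * (s ^ 5 * t ^ 5) + (13455534272931349 / 351843720888320000) * (s ^ 6 * t ^ 4) + (103424432373963 / 7036874417766400) * (s ^ 7 * t ^ 3) +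 (65710331866802921 / 2814749767106560000) * (s ^ 8 * t ^ 2) + (40183162646863313 / 2814749767106560000) * (s ^ 9 * t ^ 1) + (32761370600096653 / 11258999068426240000) * (s ^ 10 * t ^ 0) := by
        rw [hs, ht]; ring
      rw [e]; positivity
    have hb := h1
    obtain ⟨s, hs⟩ : ∃ s, s = (x - (31 / 32)) / (1 / 32) := ⟨_, rfl⟩
    obtain ⟨t, ht⟩ : ∃ t, t = ((1) - x) / (1 / 32) := ⟨_, rfl⟩
    have s0 : 0 ≤ s := by rw [hs]; exact div_nonneg (by linarith) (by norm_num)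
    have t0 : 0 ≤ t := by rw [ht]; exact div_nonneg (by linarith) (by norm_num)
    have e : ((169 / 10000) + (25649 / 5000) * x ^ 2 + ((-58113 / 2500)) * x ^ 4 + (543163 / 10000) * x ^ 6 + ((-563927 / 10000)) * x ^ 8 + (211917 / 10000) * x ^ 10) - (x - 2 * (7 / 400)) = (32761370600096653 / 11258999068426240000) * (s ^ 0 * t ^ 10) + (7726480647101247 / 175921860444160000) * (s ^ 1 * t ^ 9) + (1595068518022681 / 5497558138880000) * (s ^ 2 * t ^ 8) + (11773487319161 / 10737418240000) * (s ^ 3 * t ^ 7) + (28245890149537 / 10737418240000) * (s ^ 4 * t ^ 6) + (705419020749 / 167772160000) * (s ^ 5 * t ^ 5) + (47754712273 / 10485760000) * (s ^ 6 * t ^ 4) + (54286853 / 16384000) * (s ^ 7 * t ^ 3) + (795901 / 512000) * (s ^ 8 * t ^ 2) + (1703 / 4000) * (s ^ 9 * t ^ 1) + (259 / 5000) * (s ^ 10 * t ^ 0) := by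
      rw [hs, ht]; ring
    rw [e]; positivity
  linarith

theorem neg10 (x : ℝ) (h0 : 0 ≤ x) (h1 : x ≤ 1) : -(7 / 400) ≤ (169 / 10000) + (25649 / 5000) * x ^ 2 + ((-58113 / 2500)) * x ^ 4 + (543163 / 10000) * x ^ 6 + ((-563927 / 10000)) * x ^ 8 + (211917 / 10000) * x ^ 10 := by
  have key : 0 ≤ ((169 / 10000) + (25649 / 5000) * x ^ 2 + ((-58113 / 2500)) * x ^ 4 + (543163 / 10000) * x ^ 6 + ((-563927 / 10000)) * x ^ 8 + (211917 / 10000) * x ^ 10) - (-(7 / 400)) := by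
    have hb := h1
    obtain ⟨s, hs⟩ : ∃ s, s = (x - (0)) / (1) := ⟨_, rfl⟩
    obtain ⟨t, ht⟩ : ∃ t, t = ((1) - x) / (1) := ⟨_, rfl⟩
    have s0 : 0 ≤ s := by rw [hs]; exact div_nonneg (by linarith) (by norm_num)
    have t0 : 0 ≤ t := by rw [ht]; exact div_nonneg (by linarith) (by norm_num)
    have e : ((169 / 10000) + (25649 / 5000) * x ^ 2 + ((-58113 / 2500)) * x ^ 4 + (543163 / 10000) * x ^ 6 + ((-563927 / 10000)) * x ^ 8 + (211917 / 10000) * x ^ 10) - (-(7 / 400)) = (43 / 1250) * (s ^ 0 * t ^ 10) + (43 / 125) * (s ^ 1 * t ^ 9) + (33389 / 5000) * (s ^ 2 * t ^ 8) + (28229 / 625) * (s ^ 3 * t ^ 7) + (319033 / 2500) * (s ^ 4 * t ^ 6) + (195583 / 1250) * (s ^ 5 * t ^ 5) + (719483 / 10000) * (s ^ 6 * t ^ 4) + (21879 / 500) * (s ^ 7 * t ^ 3) + (132019 / 2000) * (s ^ 8 * t ^ 2) + (6391 / 1000) * (s ^ 9 * t ^ 1) + (10343 / 10000) * (s ^ 10 * t ^ 0) := by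
      rw [hs, ht]; ring
    rw [e]; positivity
  linarith

theorem hi10 (x : ℝ) (h0 : 0 ≤ x) (h1 : x ≤ 1) : (169 / 10000) + (25649 / 5000) * x ^ 2 + ((-58113 / 2500)) * x ^ 4 + (543163 / 10000) * x ^ 6 + ((-563927 / 10000)) * x ^ 8 + (211917 / 10000) * x ^ 10 ≤ x + 2 * (7 / 400) := by
  have key : 0 ≤ (x + 2 * (7 / 400)) - ((169 / 10000) + (25649 / 5000) * x ^ 2 + ((-58113 / 2500)) * x ^ 4 + (543163 / 10000) * x ^ 6 + ((-563927 / 10000)) * x ^ 8 + (211917 / 10000) * x ^ 10) := by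
    rcases le_total x (1 / 4) with hb | h0
    · obtain ⟨s, hs⟩ : ∃ s, s = (x - (0)) / (1 / 4) := ⟨_, rfl⟩
      obtain ⟨t, ht⟩ : ∃ t, t = ((1 / 4) - x) / (1 / 4) := ⟨_, rfl⟩
      have s0 : 0 ≤ s := by rw [hs]; exact div_nonneg (by linarith) (by norm_num)
      have t0 : 0 ≤ t := by rw [ht]; exact div_nonneg (by linarith) (by norm_num)
      have e : (x + 2 * (7 / 400)) - ((169 / 10000) + (25649 / 5000) * x ^ 2 + ((-58113 / 2500)) * x ^ 4 + (543163 / 10000) * x ^ 6 + ((-563927 / 10000)) * x ^ 8 + (211917 / 10000) * x ^ 10) = (181 / 10000) * (s ^ 0 * t ^ 10) + (431 / 1000) * (s ^ 1 * t ^ 9) + (219511 / 80000) * (s ^ 2 * t ^ 8) + (86071 / 10000) * (s ^ 3 * t ^ 7) + (10185377 / 640000) * (s ^ 4 * t ^ 6) + (5968547 / 320000) * (s ^ 5 * t ^ 5) + (581914117 / 40960000) * (s ^ 6 * t ^ 4) + (14296449 / 2048000) * (s ^ 7 * t ^ 3) + (277960331 / 131072000) * (s ^ 8 * t ^ 2) + (23565899 / 65536000)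 * (s ^ 9 * t ^ 1) + (271251107 / 10485760000) * (s ^ 10 * t ^ 0) := by
        rw [hs, ht]; ring
      rw [e]; positivity
    rcases le_total x (3 / 8) with hb | h0
    · obtain ⟨s, hs⟩ : ∃ s, s = (x - (1 / 4)) / (1 / 8) := ⟨_, rfl⟩
      obtain ⟨t, ht⟩ : ∃ t, t = ((3 / 8) - x) / (1 / 8) := ⟨_, rfl⟩
      have s0 : 0 ≤ s := by rw [hs]; exact div_nonneg (by linarith) (by norm_num)
      have t0 : 0 ≤ t := by rw [ht]; exact div_nonneg (by linarith) (by norm_num)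
      have e : (x + 2 * (7 / 400)) - ((169 / 10000) + (25649 / 5000) * x ^ 2 + ((-58113 / 2500)) * x ^ 4 + (543163 / 10000) * x ^ 6 + ((-563927 / 10000)) * x ^ 8 + (211917 / 10000) * x ^ 10) = (271251107 / 10485760000) * (s ^ 0 * t ^ 10) + (436698937 / 2097152000) * (s ^ 1 * t ^ 9) + (6057768227 / 8388608000) * (s ^ 2 * t ^ 8) + (2942084979 / 2097152000) * (s ^ 3 * t ^ 7) + (138941995691 / 83886080000) * (s ^ 4 * t ^ 6) + (100434782423 / 83886080000) * (s ^ 5 * t ^ 5) + (167178428179 / 335544320000) * (s ^ 6 * t ^ 4) + (3278924291 / 33554432000) * (s ^ 7 * t ^ 3) + (2652878683 / 536870912000) * (s ^ 8 * t ^ 2) + (1405982617 / 536870912000) * (s ^ 9 * t ^ 1) + (13353825643 / 10737418240000) * (s ^ 10 * t ^ 0) := by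
        rw [hs, ht]; ring
      rw [e]; positivity
    rcases le_total x (1 / 2) with hb | h0
    · obtain ⟨s, hs⟩ : ∃ s, s = (x - (3 / 8)) / (1 / 8) := ⟨_, rfl⟩
      obtain ⟨t, ht⟩ : ∃ t, t = ((1 / 2) - x) / (1 / 8) := ⟨_, rfl⟩
      have s0 : 0 ≤ s := by rw [hs]; exact div_nonneg (by linarith) (by norm_num)
      have t0 : 0 ≤ t := by rw [ht]; exact div_nonneg (by linarith) (by norm_num)
      have e : (x + 2 * (7 / 400)) - ((169 / 10000) + (25649 / 5000) * x ^ 2 + ((-58113 / 2500)) * x ^ 4 + (543163 / 10000) * x ^ 6 + ((-563927 / 10000)) * x ^ 8 + (211917 / 10000) * x ^ 10) = (13353825643 / 10737418240000) * (s ^ 0 * t ^ 10) + (5973921513 / 268435456000) * (s ^ 1 * t ^ 9) + (24382405591 / 134217728000) * (s ^ 2 * t ^ 8) + (3347698471 / 4194304000) * (s ^ 3 * t ^ 7) + (44091845539 / 20971520000) * (s ^ 4 * t ^ 6) + (9269824999 / 2621440000) * (s ^ 5 * t ^ 5) + (5119687559 / 1310720000)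 * (s ^ 6 * t ^ 4) + (231781347 / 81920000) * (s ^ 7 * t ^ 3) + (212418607 / 163840000) * (s ^ 8 * t ^ 2) + (6990349 / 20480000) * (s ^ 9 * t ^ 1) + (403167 / 10240000) * (s ^ 10 * t ^ 0) := by
        rw [hs, ht]; ring
      rw [e]; positivity
    rcases le_total x (3 / 4) with hb | h0
    · obtain ⟨s, hs⟩ : ∃ s, s = (x - (1 / 2)) / (1 / 4) := ⟨_, rfl⟩
      obtain ⟨t, ht⟩ : ∃ t, t = ((3 / 4) - x) / (1 / 4) := ⟨_, rfl⟩
      have s0 : 0 ≤ s := by rw [hs]; exact div_nonneg (by linarith) (by norm_num)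
      have t0 : 0 ≤ t := by rw [ht]; exact div_nonneg (by linarith) (by norm_num)
      have e : (x + 2 * (7 / 400)) - ((169 / 10000) + (25649 / 5000) * x ^ 2 + ((-58113 / 2500)) * x ^ 4 + (543163 / 10000) * x ^ 6 + ((-563927 / 10000)) * x ^ 8 + (211917 / 10000) * x ^ 10) = (403167 / 10240000) * (s ^ 0 * t ^ 10) + (5104661 / 10240000) * (s ^ 1 * t ^ 9) + (22118291 / 8192000) * (s ^ 2 * t ^ 8) + (84118299 / 10240000) * (s ^ 3 * t ^ 7) + (253894459 / 16384000) * (s ^ 4 * t ^ 6) + (1543682111 / 81920000) * (s ^ 5 * t ^ 5) + (972855767 / 65536000) * (s ^ 6 * t ^ 4) + (1212538939 / 163840000) * (s ^ 7 * t ^ 3) + (1156187671 / 524288000) * (s ^ 8 * t ^ 2) + (919215381 / 2621440000) * (s ^ 9 * t ^ 1) + (237377563 / 10485760000) * (s ^ 10 * t ^ 0) := by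
        rw [hs, ht]; ring
      rw [e]; positivity
    rcases le_total x (13 / 16) with hb | h0
    · obtain ⟨s, hs⟩ : ∃ s, s = (x - (3 / 4)) / (1 / 16) := ⟨_, rfl⟩
      obtain ⟨t, ht⟩ : ∃ t, t = ((13 / 16) - x) / (1 / 16) := ⟨_, rfl⟩
      have s0 : 0 ≤ s := by rw [hs]; exact div_nonneg (by linarith) (by norm_num)
      have t0 : 0 ≤ t := by rw [ht]; exact div_nonneg (by linarith) (by norm_num)
      have e : (x + 2 * (7 / 400)) - ((169 / 10000) + (25649 / 5000) * x ^ 2 + ((-58113 / 2500)) * x ^ 4 + (543163 / 10000) * x ^ 6 + ((-563927 / 10000)) * x ^ 8 + (211917 / 10000) * x ^ 10) = (237377563 / 10485760000) * (s ^ 0 * t ^ 10) + (4096008313 / 20971520000) * (s ^ 1 * t ^ 9) + (24942948643 / 33554432000) * (s ^ 2 * t ^ 8) + (137354464763 / 83886080000) * (s ^ 3 * t ^ 7) + (617495623511 / 268435456000) * (s ^ 4 * t ^ 6) + (5744766952123 / 2684354560000) * (s ^ 5 * t ^ 5) + (5687826844231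 / 4294967296000) * (s ^ 6 * t ^ 4) + (11443053495003 / 21474836480000) * (s ^ 7 * t ^ 3) + (18172530190643 / 137438953472000) * (s ^ 8 * t ^ 2) + (25272915799993 / 1374389534720000) * (s ^ 9 * t ^ 1) + (12930861015563 / 10995116277760000) * (s ^ 10 * t ^ 0) := by
        rw [hs, ht]; ring
      rw [e]; positivity
    rcases le_total x (7 / 8) with hb | h0
    · obtain ⟨s, hs⟩ : ∃ s, s = (x - (13 / 16)) / (1 / 16) := ⟨_, rfl⟩
      obtain ⟨t, ht⟩ : ∃ t, t = ((7 / 8) - x) / (1 / 16) := ⟨_, rfl⟩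
      have s0 : 0 ≤ s := by rw [hs]; exact div_nonneg (by linarith) (by norm_num)
      have t0 : 0 ≤ t := by rw [ht]; exact div_nonneg (by linarith) (by norm_num)
      have e : (x + 2 * (7 / 400)) - ((169 / 10000) + (25649 / 5000) * x ^ 2 + ((-58113 / 2500)) * x ^ 4 + (543163 / 10000) * x ^ 6 + ((-563927 / 10000)) * x ^ 8 + (211917 / 10000) * x ^ 10) = (12930861015563 / 10995116277760000) * (s ^ 0 * t ^ 10) + (14108473477829 / 2748779069440000) * (s ^ 1 * t ^ 9) + (35514380713447 / 2748779069440000) * (s ^ 2 * t ^ 8) + (10956606686407 / 171798691840000) * (s ^ 3 * t ^ 7) + (91981170273139 / 343597383680000) * (s ^ 4 * t ^ 6) + (54945232387887 / 85899345920000) * (s ^ 5 * t ^ 5) + (78182232003979 / 85899345920000) * (s ^ 6 * t ^ 4) + (1716990621899 / 2147483648000) * (s ^ 7 * t ^ 3) + (3676372041539 / 8589934592000) * (s ^ 8 * t ^ 2) + (11035774601 / 85899345920) * (s ^ 9 * t ^ 1) + (178466658243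 / 10737418240000) * (s ^ 10 * t ^ 0) := by
        rw [hs, ht]; ring
      rw [e]; positivity
    have hb := h1
    obtain ⟨s, hs⟩ : ∃ s, s = (x - (7 / 8)) / (1 / 8) := ⟨_, rfl⟩
    obtain ⟨t, ht⟩ : ∃ t, t = ((1) - x) / (1 / 8) := ⟨_, rfl⟩
    have s0 : 0 ≤ s := by rw [hs]; exact div_nonneg (by linarith) (by norm_num)
    have t0 : 0 ≤ t := by rw [ht]; exact div_nonneg (by linarith) (by norm_num)
    have e : (x + 2 * (7 / 400)) - ((169 / 10000) + (25649 / 5000) * x ^ 2 + ((-58113 / 2500)) * x ^ 4 + (543163 / 10000) * x ^ 6 + ((-563927 / 10000)) * x ^ 8 + (211917 / 10000) * x ^ 10) = (178466658243 / 10737418240000) * (s ^ 0 * t ^ 10) + (32438201213 / 134217728000) * (s ^ 1 * t ^ 9) + (25264653499 / 16777216000) * (s ^ 2 * t ^ 8) + (346797181 / 65536000) * (s ^ 3 * t ^ 7) + (30457707983 / 2621440000) * (s ^ 4 * t ^ 6) + (2723821179 / 163840000) * (s ^ 5 * t ^ 5) + (638873807 / 40960000)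 * (s ^ 6 * t ^ 4) + (2387899 / 256000) * (s ^ 7 * t ^ 3) + (104963 / 32000) * (s ^ 8 * t ^ 2) + (551 / 1000) * (s ^ 9 * t ^ 1) + (91 / 5000) * (s ^ 10 * t ^ 0) := by
      rw [hs, ht]; ring
    rw [e]; positivity
  linarith

theorem top10 (x : ℝ) (h0 : 0 ≤ x) (h1 : x ≤ 1) : (169 / 10000) + (25649 / 5000) * x ^ 2 + ((-58113 / 2500)) * x ^ 4 + (543163 / 10000) * x ^ 6 + ((-563927 / 10000)) * x ^ 8 + (211917 / 10000) * x ^ 10 ≤ 1 + 7 / 400 := by
  have key : 0 ≤ (1 + 7 / 400) - ((169 / 10000) + (25649 / 5000) * x ^ 2 + ((-58113 / 2500)) * x ^ 4 + (543163 / 10000) * x ^ 6 + ((-563927 / 10000)) * x ^ 8 + (211917 / 10000) * x ^ 10) := by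
    rcases le_total x (1 / 2) with hb | h0
    · obtain ⟨s, hs⟩ : ∃ s, s = (x - (0)) / (1 / 2) := ⟨_, rfl⟩
      obtain ⟨t, ht⟩ : ∃ t, t = ((1 / 2) - x) / (1 / 2) := ⟨_, rfl⟩
      have s0 : 0 ≤ s := by rw [hs]; exact div_nonneg (by linarith) (by norm_num)
      have t0 : 0 ≤ t := by rw [ht]; exact div_nonneg (by linarith) (by norm_num)
      have e : (1 + 7 / 400) - ((169 / 10000) + (25649 / 5000) * x ^ 2 + ((-58113 / 2500)) * x ^ 4 + (543163 / 10000) * x ^ 6 + ((-563927 / 10000)) * x ^ 8 + (211917 / 10000) * x ^ 10) = (5003 / 5000) * (s ^ 0 * t ^ 10) + (5003 / 500) * (s ^ 1 * t ^ 9) + (874891 / 20000) * (s ^ 2 * t ^ 8) + (274531 / 2500) * (s ^ 3 * t ^ 7) + (7026809 / 40000) * (s ^ 4 * t ^ 6) + (3781019 / 20000) * (s ^ 5 * t ^ 5) + (90430837 / 640000) * (s ^ 6 * t ^ 4) + (2365329 / 32000) * (s ^ 7 * t ^ 3) + (66659599 / 2560000) * (s ^ 8 * t ^ 2) + (7051711 / 1280000) * (s ^ 9 * t ^ 1)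 + (5343967 / 10240000) * (s ^ 10 * t ^ 0) := by
        rw [hs, ht]; ring
      rw [e]; positivity
    have hb := h1
    obtain ⟨s, hs⟩ : ∃ s, s = (x - (1 / 2)) / (1 / 2) := ⟨_, rfl⟩
    obtain ⟨t, ht⟩ : ∃ t, t = ((1) - x) / (1 / 2) := ⟨_, rfl⟩
    have s0 : 0 ≤ s := by rw [hs]; exact div_nonneg (by linarith) (by norm_num)
    have t0 : 0 ≤ t := by rw [ht]; exact div_nonneg (by linarith) (by norm_num)
    have e : (1 + 7 / 400) - ((169 / 10000) + (25649 / 5000) * x ^ 2 + ((-58113 / 2500)) * x ^ 4 + (543163 / 10000) * x ^ 6 + ((-563927 / 10000)) * x ^ 8 + (211917 / 10000) * x ^ 10) = (5343967 / 10240000) * (s ^ 0 * t ^ 10) + (12616413 / 2560000) * (s ^ 1 * t ^ 9) + (26638259 / 1280000) * (s ^ 2 * t ^ 8) + (8061661 / 160000) * (s ^ 3 * t ^ 7) + (47465663 / 640000) * (s ^ 4 * t ^ 6) + (10383621 / 160000) * (s ^ 5 * t ^ 5) + (4970327 / 160000) * (s ^ 6 * t ^ 4) + (33787 / 4000) * (s ^ 7 *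 t ^ 3) + (4057 / 1000) * (s ^ 8 * t ^ 2) + (1983 / 1000) * (s ^ 9 * t ^ 1) + (7 / 10000) * (s ^ 10 * t ^ 0) := by
      rw [hs, ht]; ring
    rw [e]; positivity
  linarith

theorem near10 : Near (fun x => (169 / 10000) + (25649 / 5000) * x ^ 2 + ((-58113 / 2500)) * x ^ 4 + (543163 / 10000) * x ^ 6 + ((-563927 / 10000)) * x ^ 8 + (211917 / 10000) * x ^ 10) (7 / 400) where
  cont := by fun_prop
  even := by intro x; ring
  u0 := by norm_num
  u1 := by norm_num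
  lo := lo10
  neg := neg10
  hi := hi10
  top := top10
  zero := by norm_num
  one := by norm_num

theorem upper10 {n : ℕ} (hn : 10 ≤ n) : E n (fun x => |x|) ≤ 7 / 400 := by
  refine E_le (C (169 / 10000) + C (25649 / 5000) * X ^ 2 + C ((-58113 / 2500)) * X ^ 4 + C (543163 / 10000) * X ^ 6 + C ((-563927 / 10000)) * X ^ 8 + C (211917 / 10000) * X ^ 10 : ℝ[X]) ?_ ?_
  · refine le_trans ?_ hn
    compute_degree
  · have h := near10.hdist_le
    simpa only [eval_add, eval_mul, eval_C, eval_pow, eval_X] using h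

end Pool.Agent.Y914.Haus
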