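import Pool.Agent.Y914.Haus.Defs

set_option autoImplicit false

/-! Upper bounds for the best Hausdorff approximation of `|x|`. -/

namespace Pool.Agent.Y914.Haus

open Set Polynomial

/-- The conditions on an even function that make it close to `|x|`. -/
structure Near (P : ℝ → ℝ) (u : ℝ) : Prop where
  cont : Continuous P
  even : ∀ x, P (-x) = P x
  u0 : 0 ≤ u
  u1 : u ≤ 1
  lo : ∀ x, 0 ≤ x → x ≤ 1 → x - 2 * u ≤ P x
  neg : ∀ x, 0 ≤ x → x ≤ 1 → -u ≤ P x
  hi : ∀ x, 0 ≤ x → x ≤ 1 → P x ≤ x + 2 * u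
  top : ∀ x, 0 ≤ x → x ≤ 1 → P x ≤ 1 + u
  zero : P 0 ≤ u
  one : 1 - u ≤ P 1

theorem Near.pos2 {P : ℝ → ℝ} {u : ℝ} (h : Near P u) {x : ℝ} (h0 : 0 ≤ x) (h1 : x ≤ 1) :
    ∃ ξ, 0 ≤ ξ ∧ ξ ≤ 1 ∧ |x - ξ| ≤ u ∧ |ξ - P x| ≤ u := by
  have := h.lo x h0 h1
  have := h.hi x h0 h1
  have := h.top x h0 h1
  have := h.neg x h0 h1
  have := h.u0
  have := h.u1
  -- the target is the clamp of `P x`
  refine ⟨max (max (x - u) 0) (min (P x) (min (x + u) 1)), ?_, ?_, ?_, ?_⟩
  · exact le_max_of_le_left (le_max_right _ _)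
  · refine max_le (max_le (by linarith) (by norm_num)) ?_
    exact (min_le_right _ _).trans (min_le_right _ _)
  · rw [abs_le]
    constructor
    · have : max (max (x - u) 0) (min (P x) (min (x + u) 1)) ≤ x + u := by
        refine max_le (max_le (by linarith) (by linarith)) ?_
        exact (min_le_right _ _).trans (min_le_left _ _)
      linarith
    · have : x - u ≤ max (max (x - u) 0) (min (P x) (min (x + u) 1)) :=
        le_max_of_le_left (le_max_left _ _)
      linarith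
  · rw [abs_le]
    constructor
    · have : P x - u ≤ max (max (x - u) 0) (min (P x) (min (x + u) 1)) := by
        refine le_max_of_le_right (le_min (by linarith) (le_min (by linarith) (by linarith)))
      linarith
    · have : max (max (x - u) 0) (min (P x) (min (x + u) 1)) ≤ P x + u := by
        refine max_le (max_le (by linarith) (by linarith)) ?_
        exact (min_le_left _ _).trans (by linarith)
      linarith

theorem Near.pos1 {P : ℝ → ℝ} {u : ℝ} (h : Near P u) {x : ℝ} (h0 : 0 ≤ x) (h1 : x ≤ 1) :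
    ∃ ξ, 0 ≤ ξ ∧ ξ ≤ 1 ∧ |x - ξ| ≤ u ∧ |x - P ξ| ≤ u := by
  have u0 := h.u0
  -- a point of the window with a small value
  obtain ⟨a, a0, a1, ax, aP⟩ : ∃ a, 0 ≤ a ∧ a ≤ x ∧ x - u ≤ a ∧ P a ≤ x + u := by
    rcases le_total u x with hx | hx
    · refine ⟨x - u, by linarith, by linarith, le_refl _, ?_⟩
      have := h.hi (x - u) (by linarith) (by linarith)
      linarith
    · exact ⟨0, le_refl _, h0, by linarith, by linarith [h.zero]⟩
  obtain ⟨b, b0, b1, bx, bP⟩ : ∃ b, x ≤ b ∧ b ≤ 1 ∧ b ≤ x + u ∧ x - u ≤ P b := by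
    rcases le_total (x + u) 1 with hx | hx
    · refine ⟨x + u, by linarith, hx, le_refl _, ?_⟩
      have := h.lo (x + u) (by linarith) hx
      linarith
    · exact ⟨1, h1, le_refl _, hx, by linarith [h.one]⟩
  -- intermediate values
  rcases le_total (P b) (x + u) with hb | hb
  · exact ⟨b, by linarith, b1, by rw [abs_le]; constructor <;> linarith,
      by rw [abs_le]; constructor <;> linarith⟩
  · rcases le_total (x - u) (P a) with ha | ha
    · exact ⟨a, a0, by linarith, by rw [abs_le]; constructor <;> linarith,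
        by rw [abs_le]; constructor <;> linarith⟩
    · have hab : a ≤ b := a1.trans b0
      have hmem : x ∈ Icc (P a) (P b) := ⟨by linarith, by linarith⟩
      obtain ⟨ξ, ⟨hξ1, hξ2⟩, hξ⟩ := intermediate_value_Icc hab h.cont.continuousOn hmem
      exact ⟨ξ, by linarith, by linarith, by rw [abs_le]; constructor <;> linarith,
        by rw [hξ]; simpa using u0⟩

theorem Near.hdist_le {P : ℝ → ℝ} {u : ℝ} (h : Near P u) : hdist (fun x => |x|) P ≤ u := by
  apply Pool.Agent.Y914.Haus.hdist_le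
  intro x hx
  rcases le_total 0 x with h0 | h0
  · obtain ⟨ξ, a0, a1, a2, a3⟩ := h.pos1 h0 hx.2
    obtain ⟨η, b0, b1, b2, b3⟩ := h.pos2 h0 hx.2
    refine hdiff_le ⟨ξ, ⟨by linarith, a1⟩, a2, ?_⟩ ⟨η, ⟨by linarith, b1⟩, b2, ?_⟩
    · simpa only [abs_of_nonneg h0] using a3
    · simpa only [abs_of_nonneg b0] using b3
  · have h0' : 0 ≤ -x := by linarith
    obtain ⟨ξ, a0, a1, a2, a3⟩ := h.pos1 h0' (by linarith [hx.1])
    obtain ⟨η, b0, b1, b2, b3⟩ := h.pos2 h0' (by linarith [hx.1])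
    refine hdiff_le ⟨-ξ, ⟨by linarith, by linarith⟩, ?_, ?_⟩ ⟨-η, ⟨by linarith, by linarith⟩, ?_, ?_⟩
    · rw [show x - -ξ = -(-x - ξ) by ring, abs_neg]; exact a2
    · simp only [abs_of_nonpos h0, h.even ξ]; exact a3
    · rw [show x - -η = -(-x - η) by ring, abs_neg]; exact b2
    · simp only [abs_neg, abs_of_nonneg b0]
      rw [← h.even x]; exact b3

end Pool.Agent.Y914.Haus
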